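import Pool.Agent.LOK.EqvPsi
import Pool.Agent.LOK.Words

set_option autoImplicit false
set_option linter.unusedSectionVars false

namespace Pool.Agent.LO.K

variable [KK]

open Filter

/-! Package LO-H: convergence of `tt` -/

structure Region where
  H : Set ℤ
  I : Set ℚ

def Reg (l : ℕ) (n : ℤ) : Region where
  H := {n' | |n' - n| < 384 * (w l : ℤ)}
  I := {r | |r - n| < 384 * (w l : ℚ) - 1}

structure Closed (R : Region) (S : Set X) : Prop where
  mv : ∀ x ∈ S, x.hd ∈ R.I → ∀ r', x.setHd r' ∈ S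
  pop : ∀ (n : ℤ) (y : X) (h : y.key ∈ core n), X.F n n y h ∈ S → (n : ℚ) ∈ R.I → y ∈ S
  tp : ∀ x ∈ S, x.hd ∈ R.I → ∃ c ∈ S, ∀ᶠ m in atTop, tt m x = c
  tm : ∀ x ∈ S, x.hd ∈ R.I → ∃ c ∈ S, ∀ᶠ m in atTop, (tt m)⁻¹ x = c

structure Full (R : Region) (S : Set X) : Prop extends Closed R S where
  push : ∀ (n : ℤ) (x : X) (h : x.key ∈ core n), x ∈ S → x.hd ∈ R.I → X.F n n x h ∈ S

theorem Closed.mono {R R' : Region} {S : Set X} (h : Closed R S) (hI : R'.I ⊆ R.I) :
    Closed R' S where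
  mv x hx hr := h.mv x hx (hI hr)
  pop n y hy hF hn := h.pop n y hy hF (hI hn)
  tp x hx hr := h.tp x hx (hI hr)
  tm x hx hr := h.tm x hx (hI hr)

theorem Full.mono {R R' : Region} {S : Set X} (h : Full R S) (hI : R'.I ⊆ R.I) :
    Full R' S where
  toClosed := h.toClosed.mono hI
  push n x hx hS hr := h.push n x hx hS (hI hr)

/-- eventual constancy with values in `S` -/
def EvC (S : Set X) (g : ℕ → (X ≃o X)) (x : X) : Prop := ∃ c ∈ S, ∀ᶠ m in atTop, g m x = c

theorem EvC.of_const {S : Set X} {g : ℕ → (X ≃o X)} {x c : X} (hc : c ∈ S)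
    (h : ∀ m, g m x = c) : EvC S g x := ⟨c, hc, Eventually.of_forall h⟩

theorem conv_mv {R : Region} {S : Set X} (hS : Closed R S) {x : X} (hx : x ∈ S)
    (hr : x.hd ∈ R.I) (φ : ℚ ≃o ℚ) : EvC S (fun _ => mv φ) x :=
  EvC.of_const (c := x.setHd (φ x.hd)) (hS.mv x hx hr _) (fun _ => mv_apply _ _)

theorem conv_mv_inv {R : Region} {S : Set X} (hS : Closed R S) {x : X} (hx : x ∈ S)
    (hr : x.hd ∈ R.I) (φ : ℚ ≃o ℚ) : EvC S (fun _ => (mv φ)⁻¹) x :=
  EvC.of_const (c := x.setHd (φ⁻¹ x.hd)) (hS.mv x hx hr _) (fun _ => mv_inv_apply _ _)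

theorem exists_tile (r : ℚ) : ∃ n : ℤ, |r - n| ≤ 1 / 2 := by
  refine ⟨⌊r + 1 / 2⌋, ?_⟩
  have h1 := Int.floor_le (r + 1 / 2)
  have h2 := Int.lt_floor_add_one (r + 1 / 2)
  rw [abs_le]
  constructor <;> linarith

theorem conv_gam {R : Region} {S : Set X} (hS : Full R S) {x : X} (hx : x ∈ S)
    (hr : x.hd ∈ R.I) : gam x ∈ S := by
  obtain ⟨n, hn⟩ := exists_tile x.hd
  by_cases h1 : x.key ∈ core n
  · rw [gam_push h1]
    exact hS.push n x h1 hx hr
  · by_cases h2 : x.key < kF (n - 3 / 8) n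
    · rw [gam_left hn h2]
      exact hS.mv x hx hr _
    · have h3 : kF (n + 3 / 8) n < x.key := by
        by_contra h3
        exact h1 ⟨not_lt.mp h2, not_lt.mp h3⟩
      rw [gam_right hn h3]
      exact hS.mv x hx hr _

theorem conv_gam_inv {R : Region} {S : Set X} (hS : Full R S) {x : X} (hx : x ∈ S)
    (hr : x.hd ∈ R.I) : gam⁻¹ x ∈ S := by
  obtain ⟨n, hn⟩ := exists_tile x.hd
  rcases lt_trichotomy x.key (kF n n) with h1 | h1 | h1
  · rw [gam_inv_left hn h1]
    exact hS.mv x hx hr _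
  · obtain ⟨y, hy, rfl⟩ := X.eq_F_of_key h1
    rw [gam_inv_pop hy]
    exact hS.pop n y hy hx hr
  · rw [gam_inv_right hn h1]
    exact hS.mv x hx hr _

theorem conv_lett {R : Region} {S : Set X} (hS : Full R S) {x : X} (hx : x ∈ S)
    (hr : x.hd ∈ R.I) (p : Fin 5 × Bool) : EvC S (fun m => lett (tt m) p) x := by
  obtain ⟨i, b⟩ := p
  cases b
  · fin_cases i
    · exact conv_mv_inv hS.toClosed hx hr oq
    · exact conv_mv_inv hS.toClosed hx hr uq
    · exact EvC.of_const (conv_gam_inv hS hx hr) (fun _ => rfl)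
    · exact conv_mv_inv hS.toClosed hx hr dq
    · exact hS.tm x hx hr
  · fin_cases i
    · exact conv_mv hS.toClosed hx hr oq
    · exact conv_mv hS.toClosed hx hr uq
    · exact EvC.of_const (conv_gam hS hx hr) (fun _ => rfl)
    · exact conv_mv hS.toClosed hx hr dq
    · exact hS.tp x hx hr

theorem conv_ev {R : Region} {S : Set X} (hS : Full R S) (v : List (Fin 5 × Bool)) {x : X}
    (hx : x ∈ S) (hr : ∀ r : ℚ, |r - x.hd| ≤ v.length → r ∈ R.I) :
    ∃ c ∈ S, (∀ᶠ m in atTop, ev (tt m) v x = c) := by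
  induction v with
  | nil => exact ⟨x, hx, Eventually.of_forall fun m => by rw [ev_nil]; rfl⟩
  | cons p v ih =>
    obtain ⟨c, hc, hm⟩ := ih (fun r h => hr r (by rw [List.length_cons]; push_cast; linarith))
    have hd : |c.hd - x.hd| ≤ v.length := by
      obtain ⟨m, hm'⟩ := hm.exists
      rw [← hm']
      exact ev_disp (HP_tt m) v x
    have hcI : c.hd ∈ R.I := hr _ (by rw [List.length_cons]; push_cast; linarith)
    obtain ⟨c', hc', hm'⟩ := conv_lett hS hc hcI p
    refine ⟨c', hc', ?_⟩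
    filter_upwards [hm, hm'] with m h1 h2
    rw [ev_cons]
    show lett (tt m) p (ev (tt m) v x) = c'
    rw [h1]
    exact h2

/-- powers of a word which is trapped -/
theorem conv_pow {R : Region} {S : Set X} (hS : Full R S) (v : List (Fin 5 × Bool)) {x : X}
    {A : ℚ} (hx : x ∈ S) (hA : ∀ m j, |((ev (tt m) v ^ (j : ℕ)) x).hd - x.hd| ≤ A)
    (hr : ∀ r : ℚ, |r - x.hd| ≤ A + v.length → r ∈ R.I) (k : ℕ) :
    ∃ c ∈ S, |c.hd - x.hd| ≤ A ∧ (∀ᶠ m in atTop, (ev (tt m) v ^ k) x = c) := by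
  induction k with
  | zero =>
    refine ⟨x, hx, ?_, Eventually.of_forall fun m => by rw [pow_zero]; rfl⟩
    have := hA 0 0
    rwa [pow_zero] at this
  | succ k ih =>
    obtain ⟨c, hc, hd, hm⟩ := ih
    obtain ⟨c', hc', hm'⟩ := conv_ev hS v hc (fun r h => hr r (by
      have : |r - x.hd| ≤ |r - c.hd| + |c.hd - x.hd| := abs_sub_le _ _ _
      linarith))
    have h3 : ∀ᶠ m in atTop, (ev (tt m) v ^ (k + 1)) x = c' := by
      filter_upwards [hm, hm'] with m h1 h2
      rw [pow_succ']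
      show ev (tt m) v ((ev (tt m) v ^ k) x) = c'
      rw [h1]
      exact h2
    refine ⟨c', hc', ?_, h3⟩
    obtain ⟨m, h4⟩ := h3.exists
    rw [← h4]
    exact hA m (k + 1)

theorem conv_V {R : Region} {S : Set X} (hS : Full R S) (l : ℕ) {x : X}
    (hx : x ∈ S) (hr : ∀ r : ℚ, |r - x.hd| ≤ 8 * w l + l → r ∈ R.I) :
    (∃ c ∈ S, |c.hd - x.hd| ≤ 8 * w l ∧ (∀ᶠ m in atTop, V (tt m) l x = c)) ∧
    (∃ c ∈ S, |c.hd - x.hd| ≤ 8 * w l ∧ (∀ᶠ m in atTop, (V (tt m) l)⁻¹ x = c)) := by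
  have hlen : ((wd l).length : ℚ) ≤ l := by exact_mod_cast wd_length l
  constructor
  · refine conv_pow hS (wd l) hx (fun m j => ?_) (fun r h => hr r (by linarith)) (kk l)
    have := Trp_tt m l x j
    rwa [zpow_natCast] at this
  · have := conv_pow hS (iw (wd l)) hx (A := 8 * w l) (fun m j => ?_)
      (fun r h => hr r (by rw [iw_length] at h; linarith)) (kk l)
    · obtain ⟨c, hc, hd, hm⟩ := this
      refine ⟨c, hc, hd, ?_⟩
      filter_upwards [hm] with m h
      unfold V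
      rw [ev_iw, inv_pow] at h
      exact h
    · have := Trp_tt m l x (-j)
      rw [zpow_neg, zpow_natCast] at this
      rw [ev_iw, inv_pow]
      exact this

/-- clamped values stay in closed sets -/
theorem conv_clamp {R : Region} {S : Set X} (hS : Closed R S) {x y : X} (hx : x ∈ S) (hy : y ∈ S)
    (hr : x.hd ∈ R.I) (φ : ℚ ≃o ℚ) : max (min y (mv φ x)) ((mv φ)⁻¹ x) ∈ S := by
  have h1 : mv φ x ∈ S := by rw [mv_apply]; exact hS.mv x hx hr _
  have h2 : (mv φ)⁻¹ x ∈ S := by rw [mv_inv_apply]; exact hS.mv x hx hr _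
  have h3 : min y (mv φ x) ∈ S := by
    rcases min_choice y (mv φ x) with h | h <;> rw [h] <;> assumption
  rcases max_choice (min y (mv φ x)) ((mv φ)⁻¹ x) with h | h <;> rw [h] <;> assumption

/-- a clamped value lies between the two points -/
theorem clamp_hd {l : ℕ} {b : Bool} {x y : X} {A : ℚ} (h : |y.hd - x.hd| ≤ A) :
    |(max (min y (mv (psi l b) x)) ((mv (psi l b))⁻¹ x)).hd - x.hd| ≤ A := by
  have h0 : 0 ≤ A := (abs_nonneg _).trans h
  have h1 : x ≤ mv (psi l b) x := le_mv (le_psi l b) x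
  have h2 : (mv (psi l b))⁻¹ x ≤ x := by
    have h3 := le_mv (le_psi l b) ((mv (psi l b))⁻¹ x)
    rw [RelIso.apply_inv_self] at h3
    exact h3
  rw [abs_le] at h ⊢
  rcases le_total x y with h3 | h3
  · have h4 : x ≤ max (min y (mv (psi l b) x)) ((mv (psi l b))⁻¹ x) :=
      le_max_of_le_left (le_min h3 h1)
    have h5 : max (min y (mv (psi l b) x)) ((mv (psi l b))⁻¹ x) ≤ y :=
      max_le (min_le_left _ _) (h2.trans h3)
    have h6 := X.hd_le_of_le h4
    have h7 := X.hd_le_of_le h5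
    constructor <;> linarith
  · have h4 : max (min y (mv (psi l b) x)) ((mv (psi l b))⁻¹ x) ≤ x :=
      max_le ((min_le_left _ _).trans h3) h2
    have h5 : y ≤ max (min y (mv (psi l b) x)) ((mv (psi l b))⁻¹ x) :=
      le_max_of_le_left (le_min le_rfl (h3.trans h1))
    have h6 := X.hd_le_of_le h4
    have h7 := X.hd_le_of_le h5
    constructor <;> linarith

theorem conv_hh {S : Set X} {l : ℕ} {b : Bool} {n : ℤ} (hS : Full (Reg l n) S) {z : X}
    (hz : z ∈ S) (hd : |z.hd - n| ≤ JJ l + 1 / 4) :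
    (∃ c ∈ S, ∀ᶠ m in atTop, hh (tt m) l b z = c) ∧
    (∃ c ∈ S, ∀ᶠ m in atTop, (hh (tt m) l b)⁻¹ z = c) := by
  have hJ : (JJ l : ℚ) = 336 * w l := by unfold JJ; push_cast; ring
  have hw : (l : ℚ) + 2 ≤ w l := by exact_mod_cast add_two_le_w l
  have hl0 : (0 : ℚ) ≤ l := Nat.cast_nonneg l
  rw [hJ] at hd
  -- all points within `344 w + 1/4` of `n` are fine
  have hI : ∀ y : X, |y.hd - n| ≤ 344 * w l + 1 / 4 →
      ∀ r : ℚ, |r - y.hd| ≤ 8 * w l + l → r ∈ (Reg l n).I := by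
    intro y hy r hr
    show |r - n| < 384 * (w l : ℚ) - 1
    have : |r - n| ≤ |r - y.hd| + |y.hd - n| := abs_sub_le _ _ _
    linarith
  have hI' : ∀ y : X, |y.hd - n| ≤ 344 * w l + 1 / 4 → y.hd ∈ (Reg l n).I := fun y hy =>
    hI y hy _ (by rw [sub_self, abs_zero]; positivity)
  have hz' : |z.hd - n| ≤ 344 * w l + 1 / 4 := by linarith
  obtain ⟨⟨c1, hc1, hd1, hm1⟩, ⟨c2, hc2, hd2, hm2⟩⟩ := conv_V hS l hz (hI z hz')
  have hc1n : |c1.hd - n| ≤ 344 * w l + 1 / 4 := by
    have : |c1.hd - n| ≤ |c1.hd - z.hd| + |z.hd - n| := abs_sub_le _ _ _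
    linarith
  cases b
  · -- hB
    constructor
    · refine ⟨_, conv_clamp hS.toClosed hz
        (conv_clamp hS.toClosed hc1 hz (hI' c1 hc1n) (psi l true)) (hI' z hz') (psi l false), ?_⟩
      filter_upwards [hm1] with m h1
      show hB (tt m) l z = _
      rw [hB_apply, hA_inv_apply, RelIso.inv_apply_self, h1]
    · -- a = hA z
      have ha : max (min c1 (mv (psi l true) z)) ((mv (psi l true))⁻¹ z) ∈ S :=
        conv_clamp hS.toClosed hz hc1 (hI' z hz') (psi l true)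
      have had : |(max (min c1 (mv (psi l true) z)) ((mv (psi l true))⁻¹ z)).hd - z.hd| ≤
          8 * w l := clamp_hd hd1
      have han : |(max (min c1 (mv (psi l true) z)) ((mv (psi l true))⁻¹ z)).hd - n| ≤
          344 * w l + 1 / 4 := by
        have := abs_sub_le (max (min c1 (mv (psi l true) z)) ((mv (psi l true))⁻¹ z)).hd z.hd n
        linarith
      obtain ⟨-, ⟨c3, hc3, hd3, hm3⟩⟩ := conv_V hS l ha (hI _ han)
      refine ⟨_, conv_clamp hS.toClosed hz hc3 (hI' z hz') (psi l false), ?_⟩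
      filter_upwards [hm1, hm3] with m h1 h3
      show (hB (tt m) l)⁻¹ z = _
      rw [hB_inv_apply, hA_apply, h1, h3]
  · constructor
    · refine ⟨_, conv_clamp hS.toClosed hz hc1 (hI' z hz') (psi l true), ?_⟩
      filter_upwards [hm1] with m h1
      show hA (tt m) l z = _
      rw [hA_apply, h1]
    · refine ⟨_, conv_clamp hS.toClosed hz hc2 (hI' z hz') (psi l true), ?_⟩
      filter_upwards [hm2] with m h2
      show (hA (tt m) l)⁻¹ z = _
      rw [hA_inv_apply, h2]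

theorem core_not_near {x : X} {n n' : ℤ} (h : x.key ∈ core n) (hne : n' ≠ n) :
    1 / 4 < |x.hd - n'| := by
  have h1 := X.hd_near_of_core h
  have h2 : (1 : ℚ) ≤ |(n : ℚ) - n'| := by
    have h3 : (1 : ℤ) ≤ |n - n'| := Int.one_le_abs (sub_ne_zero.mpr hne.symm)
    exact_mod_cast h3
  have h3 : |(n : ℚ) - n'| ≤ |(n : ℚ) - x.hd| + |x.hd - n'| := abs_sub_le _ _ _
  rw [abs_sub_comm (n : ℚ) x.hd] at h3
  linarith

theorem near_mem_I {l : ℕ} {n : ℤ} {r : ℚ} (h : |r - n| ≤ JJ l + 1 / 4) : r ∈ (Reg l n).I := by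
  show |r - n| < 384 * (w l : ℚ) - 1
  have hJ : (JJ l : ℚ) = 336 * w l := by unfold JJ; push_cast; ring
  have hw : (l : ℚ) + 2 ≤ w l := by exact_mod_cast add_two_le_w l
  have hl0 : (0 : ℚ) ≤ l := Nat.cast_nonneg l
  linarith

theorem JJ_lt_M (l : ℕ) : JJ l < M l := by
  rw [M_eq]; unfold JJ
  have := w_pos l
  omega

/-- good contents -/
def Gd (S : Set X) (n : ℤ) : Set X := {y | y ∈ S ∧ y.key ∈ core n}

theorem conv_E {S : Set X} {l : ℕ} {b : Bool} {n : ℤ} (hn : isC l b n)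
    (hS : Full (Reg l n) S) {y : X} (hy : y ∈ Gd S n) :
    EvC (Gd S n) (fun m => E (tt m) l b) y ∧ EvC (Gd S n) (fun m => (E (tt m) l b)⁻¹) y := by
  by_cases hnear : |y.hd - n| ≤ 1 / 4
  · have hz : (mv (fq l b (JJ l)))⁻¹ y ∈ S := by
      rw [mv_inv_apply]
      exact hS.mv y hy.1 (near_mem_I (by
        have : (0 : ℚ) ≤ JJ l := Nat.cast_nonneg _
        linarith)) _
    have hzhd : ((mv (fq l b (JJ l)))⁻¹ y).hd = (fq l b (JJ l))⁻¹ y.hd := by
      rw [mv_inv_apply, X.hd_setHd]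
    have hzn : |((mv (fq l b (JJ l)))⁻¹ y).hd - n| ≤ JJ l + 1 / 4 := by
      rw [hzhd, ← fq_iff l b hn (JJ_lt_M l), RelIso.apply_inv_self]
      exact hnear
    obtain ⟨⟨c1, hc1, hm1⟩, ⟨c2, hc2, hm2⟩⟩ := conv_hh (b := b) hS hz hzn
    constructor
    · have hc1n : |c1.hd - n| ≤ JJ l + 1 / 4 := by
        obtain ⟨m, hm⟩ := hm1.exists
        rw [← hm]
        exact (hh_near (tt m) l b hn hzn).1
      have hmem : mv (fq l b (JJ l)) c1 ∈ S := by
        rw [mv_apply]
        exact hS.mv c1 hc1 (near_mem_I hc1n) _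
      have hev : ∀ᶠ m in atTop, E (tt m) l b y = mv (fq l b (JJ l)) c1 := by
        filter_upwards [hm1] with m h1
        show mv (fq l b (JJ l)) (hh (tt m) l b ((mv (fq l b (JJ l)))⁻¹ y)) = _
        rw [h1]
      refine ⟨_, ⟨hmem, ?_⟩, hev⟩
      obtain ⟨m, hm⟩ := hev.exists
      rw [← hm]
      exact (E_core (tt m) l b hy.2).1
    · have hc2n : |c2.hd - n| ≤ JJ l + 1 / 4 := by
        obtain ⟨m, hm⟩ := hm2.exists
        rw [← hm]
        exact (hh_near (tt m) l b hn hzn).2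
      have hmem : mv (fq l b (JJ l)) c2 ∈ S := by
        rw [mv_apply]
        exact hS.mv c2 hc2 (near_mem_I hc2n) _
      have hev : ∀ᶠ m in atTop, (E (tt m) l b)⁻¹ y = mv (fq l b (JJ l)) c2 := by
        filter_upwards [hm2] with m h2
        have h3 : (E (tt m) l b)⁻¹ =
            mv (fq l b (JJ l)) * (hh (tt m) l b)⁻¹ * (mv (fq l b (JJ l)))⁻¹ := by
          unfold E
          group
        rw [h3]
        show mv (fq l b (JJ l)) ((hh (tt m) l b)⁻¹ ((mv (fq l b (JJ l)))⁻¹ y)) = _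
        rw [h2]
      refine ⟨_, ⟨hmem, ?_⟩, hev⟩
      obtain ⟨m, hm⟩ := hev.exists
      rw [← hm]
      exact (E_core (tt m) l b hy.2).2
  · have hfix : ∀ n', isC l b n' → 1 / 4 < |y.hd - n'| := by
      intro n' _
      by_cases hnn : n' = n
      · subst hnn
        exact not_le.mp hnear
      · exact core_not_near hy.2 hnn
    exact ⟨EvC.of_const hy (fun m => (E_fix (tt m) l b hfix).1),
      EvC.of_const hy (fun m => (E_fix (tt m) l b hfix).2)⟩

/-- uniformly eventually constant families on `G` -/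
def EvG (G : Set X) (g : ℕ → (X ≃o X)) : Prop := ∀ y ∈ G, EvC G g y

theorem EvG.mul {G : Set X} {g g' : ℕ → (X ≃o X)} (h : EvG G g) (h' : EvG G g') :
    EvG G (fun m => g m * g' m) := by
  intro y hy
  obtain ⟨c, hc, hm⟩ := h' y hy
  obtain ⟨c', hc', hm'⟩ := h c hc
  refine ⟨c', hc', ?_⟩
  filter_upwards [hm, hm'] with m h1 h2
  show g m (g' m y) = c'
  rw [h1, h2]

theorem EvG.one {G : Set X} : EvG G (fun _ => 1) := fun _ hy => EvC.of_const hy (fun _ => rfl)

theorem EvG.pow {G : Set X} {g : ℕ → (X ≃o X)} (h : EvG G g) (k : ℕ) :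
    EvG G (fun m => g m ^ k) := by
  induction k with
  | zero => simpa using EvG.one
  | succ k ih =>
    have := ih.mul h
    simpa [pow_succ] using this

theorem near_core_mem_I {l : ℕ} {n : ℤ} {y : X} (h : y.key ∈ core n) : y.hd ∈ (Reg l n).I := by
  refine near_mem_I ?_
  have h1 := X.hd_near_of_core h
  have h2 : (1 : ℚ) ≤ JJ l := by
    have : 1 ≤ JJ l := by unfold JJ; have := w_pos l; omega
    exact_mod_cast this
  linarith

theorem conv_P {S : Set X} {l : ℕ} {b : Bool} {n : ℤ} (hn : isC l b n)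
    (hS : Full (Reg l n) S) {y : X} (hy : y ∈ Gd S n) :
    EvC (Gd S n) (fun m => P (tt m) l b) y ∧ EvC (Gd S n) (fun m => (P (tt m) l b)⁻¹) y := by
  obtain ⟨m0, hm0⟩ := PM_spec l b y.hd
  have hE : EvG (Gd S n) (fun m => E (tt m) l b) := fun y hy => (conv_E hn hS hy).1
  have hE' : EvG (Gd S n) (fun m => (E (tt m) l b)⁻¹) := fun y hy => (conv_E hn hS hy).2
  have hd : EvG (Gd S n) (fun _ => mv dq) := fun y hy =>
    EvC.of_const (c := mv dq y) ⟨by
      rw [mv_apply]; exact hS.mv y hy.1 (near_core_mem_I hy.2) _, (dq_core hy.2).1⟩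
      (fun _ => rfl)
  have hd' : EvG (Gd S n) (fun _ => (mv dq)⁻¹) := fun y hy =>
    EvC.of_const (c := (mv dq)⁻¹ y) ⟨by
      rw [mv_inv_apply]; exact hS.mv y hy.1 (near_core_mem_I hy.2) _, (dq_core hy.2).2⟩
      (fun _ => rfl)
  have h1 : EvG (Gd S n) (fun m => PM (tt m) l b m0) := by
    have := ((hE.mul hd).pow m0).mul (hd'.pow m0)
    simpa [PM, inv_pow] using this
  have h2 : EvG (Gd S n) (fun m => (PM (tt m) l b m0)⁻¹) := by
    have := (hd.pow m0).mul ((hd'.mul hE').pow m0)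
    have h3 : ∀ m, (PM (tt m) l b m0)⁻¹ = (mv dq) ^ m0 * ((mv dq)⁻¹ * (E (tt m) l b)⁻¹) ^ m0 := by
      intro m
      unfold PM
      rw [mul_inv_rev, inv_inv, ← inv_pow, mul_inv_rev]
    simpa [h3] using this
  constructor
  · obtain ⟨c, hc, hm⟩ := h1 y hy
    refine ⟨c, hc, ?_⟩
    filter_upwards [hm] with m h
    exact ((hm0 m0 le_rfl (tt m) y rfl).1).trans h
  · obtain ⟨c, hc, hm⟩ := h2 y hy
    refine ⟨c, hc, ?_⟩
    filter_upwards [hm] with m h
    exact ((hm0 m0 le_rfl (tt m) y rfl).2).trans h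

theorem ev_shift {g : ℕ → (X ≃o X)} {x c : X} (h : ∀ᶠ m in atTop, g (m + 1) x = c) :
    ∀ᶠ m in atTop, g m x = c := by
  rw [eventually_atTop] at h ⊢
  obtain ⟨N, hN⟩ := h
  refine ⟨N + 1, fun m hm => ?_⟩
  obtain ⟨m', rfl⟩ : ∃ m', m = m' + 1 := ⟨m - 1, by omega⟩
  exact hN m' (by omega)

/-- frames at call places -/
theorem conv_call {S : Set X} {l : ℕ} {n : ℤ} (hn : (M l : ℤ) ∣ n)
    (hS : Full (Reg l n) S) {y : X} (hy : y ∈ S) (h : y.key ∈ core n) :
    (∃ c, ∃ hc : c.key ∈ core n, c ∈ S ∧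
      ∀ᶠ m in atTop, tt m (X.F (call l n) n y h) = X.F (call l n) n c hc) ∧
    (∃ c, ∃ hc : c.key ∈ core n, c ∈ S ∧
      ∀ᶠ m in atTop, (tt m)⁻¹ (X.F (call l n) n y h) = X.F (call l n) n c hc) := by
  obtain ⟨h1, h2⟩ := conv_P (isC_decide hn) hS (y := y) ⟨hy, h⟩
  constructor
  · obtain ⟨c, hc, hm⟩ := h1
    refine ⟨c, hc.2, hc.1, ev_shift ?_⟩
    filter_upwards [hm] with m hm
    show Psi (tt m) _ = _
    rw [Psi_F]
    congr 1
    rw [Q_call _ _ hn]
    exact hm
  · obtain ⟨c, hc, hm⟩ := h2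
    refine ⟨c, hc.2, hc.1, ev_shift ?_⟩
    filter_upwards [hm] with m hm
    show (Psi (tt m))⁻¹ _ = _
    rw [Psi_inv_F]
    congr 1
    rw [Q_call _ _ hn]
    exact hm

theorem conv_not_call {r : ℚ} {n : ℤ} (h : ¬ ∃ l : ℕ, (M l : ℤ) ∣ n ∧ r = call l n) {y : X}
    (hy : y.key ∈ core n) (m : ℕ) :
    tt m (X.F r n y hy) = X.F r n y hy ∧ (tt m)⁻¹ (X.F r n y hy) = X.F r n y hy := by
  cases m with
  | zero => exact ⟨rfl, rfl⟩
  | succ m =>
    constructor
    · show Psi (tt m) _ = _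
      rw [Psi_F]
      congr 1
      rw [Q_not _ h]; rfl
    · show (Psi (tt m))⁻¹ _ = _
      rw [Psi_inv_F]
      congr 1
      rw [Q_not _ h]; rfl

/-! Stacks over a base set -/

inductive Star (R : Region) (B : Set X) : X → Prop
  | base (x : X) : x ∈ B → Star R B x
  | fr (r : ℚ) (n : ℤ) (y : X) (h : y.key ∈ core n) : Star R B y → n ∈ R.H →
      Star R B (X.F r n y h)

structure Nice (R : Region) (Λ : Set ℕ) : Prop where
  n0 : ∀ r ∈ R.I, ∀ n : ℤ, |r - n| ≤ 1 / 2 → n ∈ R.H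
  n1 : ∀ l ∈ Λ, ∀ n ∈ R.H, (M l : ℤ) ∣ n → (Reg l n).H ⊆ R.H ∧ (Reg l n).I ⊆ R.I
  n2 : ∀ n ∈ R.H, ∀ l, (M l : ℤ) ∣ n → call l n ∈ R.I → l ∈ Λ

def CC (R : Region) : Prop := ∀ B : Set X, Closed R B → Full R {x | Star R B x}

theorem Star.mono {R R' : Region} {B B' : Set X} (hH : R'.H ⊆ R.H)
    (hB : ∀ x ∈ B', Star R B x) {x : X} (hx : Star R' B' x) : Star R B x := by
  induction hx with
  | base x hx => exact hB x hx
  | fr r n y h _ hn ih => exact Star.fr r n y h ih (hH hn)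

theorem call_bdd (l : ℕ) (n n' : ℤ) :
    ∃ N : ℕ, ∀ l' : ℕ, call l' n' ∈ (Reg l n).I → l' ≤ N := by
  refine ⟨(|n' - n| + 384 * w l + 1).toNat, fun l' h => ?_⟩
  have h1 := (call_dist l' n').1
  have h2 : |call l' n' - n| < 384 * (w l : ℚ) - 1 := h
  have h3 : |call l' n' - n'| ≤ |call l' n' - n| + |(n : ℚ) - n'| := abs_sub_le _ _ _
  have h4 : (l' : ℚ) + 2 ≤ w l' := by exact_mod_cast add_two_le_w l'
  have h5 : (dd l' : ℚ) = 448 * w l' := by unfold dd; push_cast; ring
  have h6 : (l' : ℚ) ≤ |(n' : ℚ) - n| + 384 * w l + 1 := by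
    rw [abs_sub_comm (n' : ℚ) n]
    linarith
  have h7 : (l' : ℤ) ≤ |n' - n| + 384 * w l + 1 := by exact_mod_cast h6
  omega

theorem step {R : Region} {Λ : Set ℕ} (hN : Nice R Λ)
    (hC : ∀ l ∈ Λ, ∀ n : ℤ, (M l : ℤ) ∣ n → CC (Reg l n)) : CC R := by
  intro B hB
  -- the sub-claim
  have sub : ∀ y, Star R B y → ∀ l ∈ Λ, ∀ n ∈ R.H, (M l : ℤ) ∣ n →
      ∃ B1 : Set X, Closed (Reg l n) B1 ∧ Star (Reg l n) B1 y ∧
        ∀ x, Star (Reg l n) B1 x → Star R B x := by
    intro y hy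
    induction hy with
    | base y hy =>
      intro l hl n hn hd
      obtain ⟨h1, h2⟩ := hN.n1 l hl n hn hd
      exact ⟨B, hB.mono h2, Star.base y hy, fun x hx =>
        Star.mono h1 (fun x hx => Star.base x hx) hx⟩
    | fr r' n' y' h' hy' hn' ih =>
      intro l hl n hn hd
      obtain ⟨hH, hI⟩ := hN.n1 l hl n hn hd
      by_cases hcase : n' ∈ (Reg l n).H
      · obtain ⟨B1, hB1, hs1, hs2⟩ := ih l hl n hn hd
        exact ⟨B1, hB1, Star.fr r' n' y' h' hs1 hcase, hs2⟩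
      · -- home outside of the region
        have hpop : ∀ r : ℚ, r ∈ (Reg l n).I → r ≠ n' := by
          rintro r hr rfl
          apply hcase
          show |n' - n| < 384 * (w l : ℤ)
          have h1 : |(n' : ℚ) - n| < 384 * (w l : ℚ) - 1 := hr
          have h2 : |(n' : ℚ) - n| < 384 * (w l : ℚ) := by linarith
          exact_mod_cast h2
        by_cases hex : ∃ l' : ℕ, (M l' : ℤ) ∣ n' ∧ call l' n' ∈ (Reg l n).I
        · -- the largest such level
          obtain ⟨N, hNb⟩ := call_bdd l n n'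
          classical
          obtain ⟨l0, hl0⟩ := hex
          have hL := Nat.findGreatest_spec (P := fun l' => (M l' : ℤ) ∣ n' ∧
            call l' n' ∈ (Reg l n).I) (hNb l0 hl0.2) hl0
          set L := Nat.findGreatest (fun l' => (M l' : ℤ) ∣ n' ∧
            call l' n' ∈ (Reg l n).I) N with hLdef
          have hmax : ∀ l' : ℕ, (M l' : ℤ) ∣ n' → call l' n' ∈ (Reg l n).I → l' ≤ L := by
            intro l' h1 h2
            exact Nat.le_findGreatest (hNb l' h2) ⟨h1, h2⟩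
          have hLΛ : L ∈ Λ := hN.n2 n' hn' L hL.1 (hI hL.2)
          obtain ⟨B2, hB2, hs1, hs2⟩ := ih L hLΛ n' hn' hL.1
          have hfull : Full (Reg L n') {x | Star (Reg L n') B2 x} := hC L hLΛ n' hL.1 B2 hB2
          let S1 : Set X := {x | ∃ r'' y'', ∃ h'' : y''.key ∈ core n', Star (Reg L n') B2 y'' ∧
            x = X.F r'' n' y'' h''}
          refine ⟨S1, ?_, ?_, ?_⟩
          · constructor
            · rintro x ⟨r'', y'', h'', hs, rfl⟩ _ r
              exact ⟨r, y'', h'', hs, rfl⟩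
            · rintro k y hk ⟨r'', y'', h'', hs, heq⟩ hkI
              obtain ⟨h1, h2, -⟩ := X.F_inj heq
              exact absurd (by rw [h2]) (hpop k hkI)
            · rintro x ⟨r'', y'', h'', hs, rfl⟩ hx
              by_cases hc : ∃ l' : ℕ, (M l' : ℤ) ∣ n' ∧ r'' = call l' n'
              · obtain ⟨l', hl', rfl⟩ := hc
                have hle : l' ≤ L := hmax l' hl' hx
                have hsub : (Reg l' n').I ⊆ (Reg L n').I := by
                  intro r hr
                  have h1 : |r - n'| < 384 * (w l' : ℚ) - 1 := hr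
                  show |r - n'| < 384 * (w L : ℚ) - 1
                  have h2 : (w l' : ℚ) ≤ w L := by exact_mod_cast w_le hle
                  linarith
                obtain ⟨⟨c, hc, hcS, hm⟩, -⟩ := conv_call hl' (hfull.mono hsub) hs h''
                exact ⟨_, ⟨_, c, hc, hcS, rfl⟩, hm⟩
              · exact ⟨_, ⟨r'', y'', h'', hs, rfl⟩, Eventually.of_forall fun m =>
                  (conv_not_call hc h'' m).1⟩
            · rintro x ⟨r'', y'', h'', hs, rfl⟩ hx
              by_cases hc : ∃ l' : ℕ, (M l' : ℤ) ∣ n' ∧ r'' = call l' n'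
              · obtain ⟨l', hl', rfl⟩ := hc
                have hle : l' ≤ L := hmax l' hl' hx
                have hsub : (Reg l' n').I ⊆ (Reg L n').I := by
                  intro r hr
                  have h1 : |r - n'| < 384 * (w l' : ℚ) - 1 := hr
                  show |r - n'| < 384 * (w L : ℚ) - 1
                  have h2 : (w l' : ℚ) ≤ w L := by exact_mod_cast w_le hle
                  linarith
                obtain ⟨-, ⟨c, hc, hcS, hm⟩⟩ := conv_call hl' (hfull.mono hsub) hs h''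
                exact ⟨_, ⟨_, c, hc, hcS, rfl⟩, hm⟩
              · exact ⟨_, ⟨r'', y'', h'', hs, rfl⟩, Eventually.of_forall fun m =>
                  (conv_not_call hc h'' m).2⟩
          · exact Star.base _ ⟨r', y', h', hs1, rfl⟩
          · intro x hx
            refine Star.mono hH ?_ hx
            rintro x ⟨r'', y'', h'', hs, rfl⟩
            exact Star.fr r'' n' y'' h'' (hs2 y'' hs) hn'
        · -- no call place in the region
          let S1 : Set X := {x | ∃ r'', x = X.F r'' n' y' h'}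
          have hno : ∀ r'' ∈ (Reg l n).I, ¬ ∃ l' : ℕ, (M l' : ℤ) ∣ n' ∧ r'' = call l' n' := by
            rintro r'' hr ⟨l', h1, rfl⟩
            exact hex ⟨l', h1, hr⟩
          refine ⟨S1, ?_, ?_, ?_⟩
          · constructor
            · rintro x ⟨r'', rfl⟩ _ r
              exact ⟨r, rfl⟩
            · rintro k y hk ⟨r'', heq⟩ hkI
              obtain ⟨h1, h2, -⟩ := X.F_inj heq
              exact absurd (by rw [h2]) (hpop k hkI)
            · rintro x ⟨r'', rfl⟩ hx
              exact ⟨_, ⟨r'', rfl⟩, Eventually.of_forall fun m =>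
                  (conv_not_call (hno r'' hx) h' m).1⟩
            · rintro x ⟨r'', rfl⟩ hx
              exact ⟨_, ⟨r'', rfl⟩, Eventually.of_forall fun m =>
                  (conv_not_call (hno r'' hx) h' m).2⟩
          · exact Star.base _ ⟨r', rfl⟩
          · intro x hx
            refine Star.mono hH ?_ hx
            rintro x ⟨r'', rfl⟩
            exact Star.fr r'' n' y' h' hy' hn'
  -- convergence on frames
  have frame : ∀ r n y h, Star R B y → n ∈ R.H → r ∈ R.I →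
      (∃ c ∈ {x | Star R B x}, ∀ᶠ m in atTop, tt m (X.F r n y h) = c) ∧
      (∃ c ∈ {x | Star R B x}, ∀ᶠ m in atTop, (tt m)⁻¹ (X.F r n y h) = c) := by
    intro r n y h hy hn hr
    by_cases hc : ∃ l : ℕ, (M l : ℤ) ∣ n ∧ r = call l n
    · obtain ⟨l, hl, rfl⟩ := hc
      have hlΛ : l ∈ Λ := hN.n2 n hn l hl hr
      obtain ⟨B1, hB1, hs1, hs2⟩ := sub y hy l hlΛ n hn hl
      have hfull := hC l hlΛ n hl B1 hB1
      obtain ⟨⟨c, hc, hcS, hm⟩, ⟨c', hc', hcS', hm'⟩⟩ := conv_call hl hfull hs1 h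
      exact ⟨⟨_, Star.fr _ n c hc (hs2 c hcS) hn, hm⟩, ⟨_, Star.fr _ n c' hc' (hs2 c' hcS') hn, hm'⟩⟩
    · exact ⟨⟨_, Star.fr r n y h hy hn, Eventually.of_forall fun m => (conv_not_call hc h m).1⟩,
        ⟨_, Star.fr r n y h hy hn, Eventually.of_forall fun m => (conv_not_call hc h m).2⟩⟩
  refine ⟨⟨?_, ?_, ?_, ?_⟩, ?_⟩
  · intro x hx hr r'
    cases hx with
    | base x hx => exact Star.base _ (hB.mv x hx hr r')
    | fr r n y h hy hn => exact Star.fr r' n y h hy hn
  · intro n y h hx hn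
    generalize hz : X.F n n y h = z at hx
    cases hx with
    | base z hz' =>
      subst hz
      exact Star.base _ (hB.pop n y h hz' hn)
    | fr r k y' h' hy' hk =>
      obtain ⟨-, -, rfl⟩ := X.F_inj hz
      exact hy'
  · intro x hx hr
    cases hx with
    | base x hx =>
      obtain ⟨c, hc, hm⟩ := hB.tp x hx hr
      exact ⟨c, Star.base _ hc, hm⟩
    | fr r n y h hy hn => exact (frame r n y h hy hn hr).1
  · intro x hx hr
    cases hx with
    | base x hx =>
      obtain ⟨c, hc, hm⟩ := hB.tm x hx hr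
      exact ⟨c, Star.base _ hc, hm⟩
    | fr r n y h hy hn => exact (frame r n y h hy hn hr).2
  · intro n x h hx hr
    refine Star.fr n n x h hx (hN.n0 x.hd hr n ?_)
    have := X.hd_near_of_core h
    linarith

/-- regions of programs are nice -/
theorem nice_Reg (l : ℕ) {n : ℤ} (hn : (M l : ℤ) ∣ n) : Nice (Reg l n) {l' | l' < l} where
  n0 r hr k hk := by
    show |k - n| < 384 * (w l : ℤ)
    have h1 : |r - n| < 384 * (w l : ℚ) - 1 := hr
    have h2 : |(k : ℚ) - n| ≤ |(k : ℚ) - r| + |r - n| := abs_sub_le _ _ _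
    rw [abs_sub_comm (k : ℚ) r] at h2
    have h3 : |(k : ℚ) - n| < 384 * (w l : ℚ) := by linarith
    exact_mod_cast h3
  n1 l' hl' k hk hkd := by
    have hl'' : l' < l := hl'
    have hk' : |k - n| < 384 * (w l : ℤ) := hk
    -- `384 w l` is a multiple of `M l'`
    have hw : 2 * M l' ∣ w l := two_M_dvd_w hl''
    have hw' : (M l' : ℤ) ∣ (w l : ℤ) := by
      have : M l' ∣ w l := (Dvd.intro_left 2 rfl).trans hw
      exact_mod_cast this
    have hnn : (M l' : ℤ) ∣ n := by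
      have : M l' ∣ M l := M_dvd hl''.le
      exact (by exact_mod_cast this : (M l' : ℤ) ∣ M l).trans hn
    have hMpos : (0 : ℤ) < M l' := by
      have := w_pos l'
      have h1 := M_eq l'
      omega
    have hMl' : (M l' : ℤ) = 512 * w l' := by exact_mod_cast M_eq l'
    have hgap : |k - n| + M l' ≤ 384 * (w l : ℤ) := by
      obtain ⟨a, ha⟩ : (M l' : ℤ) ∣ 384 * (w l : ℤ) - |k - n| := by
        apply dvd_sub (Dvd.dvd.mul_left hw' _)
        rw [dvd_abs]
        exact dvd_sub hkd hnn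
      have ha0 : 0 < a := by
        by_contra h
        push Not at h
        have : (M l' : ℤ) * a ≤ 0 := mul_nonpos_of_nonneg_of_nonpos hMpos.le h
        omega
      have : (M l' : ℤ) * 1 ≤ M l' * a := by
        apply mul_le_mul_of_nonneg_left _ hMpos.le
        omega
      omega
    have hwl' : (0 : ℤ) < w l' := by exact_mod_cast w_pos l'
    constructor
    · intro j hj
      have hj' : |j - k| < 384 * (w l' : ℤ) := hj
      show |j - n| < 384 * (w l : ℤ)
      have h2 : |j - n| ≤ |j - k| + |k - n| := abs_sub_le _ _ _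
      omega
    · intro r hr
      have hr' : |r - k| < 384 * (w l' : ℚ) - 1 := hr
      show |r - n| < 384 * (w l : ℚ) - 1
      have h2 : |r - n| ≤ |r - k| + |(k : ℚ) - n| := abs_sub_le _ _ _
      have h3 : |(k : ℚ) - n| + M l' ≤ 384 * (w l : ℚ) := by exact_mod_cast hgap
      have h4 : (M l' : ℚ) = 512 * w l' := by exact_mod_cast M_eq l'
      have h5 : (0 : ℚ) < w l' := by exact_mod_cast w_pos l'
      linarith
  n2 k hk l' hkd hcall := by
    show l' < l
    by_contra hlt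
    push Not at hlt
    have hk' : |k - n| < 384 * (w l : ℤ) := hk
    have hkl : (M l : ℤ) ∣ k := by
      have : M l ∣ M l' := M_dvd hlt
      exact (by exact_mod_cast this : (M l : ℤ) ∣ M l').trans hkd
    have hkn : k = n := by
      have h1 : (M l : ℤ) ∣ k - n := dvd_sub hkl hn
      have h2 : |k - n| < M l := by
        have : (M l : ℤ) = 512 * w l := by exact_mod_cast M_eq l
        have h3 : (0 : ℤ) < w l := by exact_mod_cast w_pos l
        omega
      have := Int.eq_zero_of_abs_lt_dvd h1 h2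
      omega
    subst hkn
    have h1 := (call_dist l' k).1
    have h2 : |call l' k - k| < 384 * (w l : ℚ) - 1 := hcall
    have h3 : (w l : ℚ) ≤ w l' := by exact_mod_cast w_le hlt
    have h5 : (dd l' : ℚ) = 448 * w l' := by unfold dd; push_cast; ring
    have h6 : (0 : ℚ) < w l' := by exact_mod_cast w_pos l'
    linarith

theorem CC_Reg (l : ℕ) : ∀ n : ℤ, (M l : ℤ) ∣ n → CC (Reg l n) := by
  induction l using Nat.strong_induction_on with
  | _ l ih =>
    intro n hn
    exact step (nice_Reg l hn) (fun l' hl' n' hn' => ih l' hl' n' hn')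

theorem tt_T (m : ℕ) (r : ℚ) : tt m (X.T r) = X.T r ∧ (tt m)⁻¹ (X.T r) = X.T r := by
  cases m with
  | zero => exact ⟨rfl, rfl⟩
  | succ m => exact ⟨Psi_T _ _, Psi_inv_T _ _⟩

theorem tt_conv (x : X) :
    (∃ c, ∀ᶠ m in atTop, tt m x = c) ∧ (∃ c, ∀ᶠ m in atTop, (tt m)⁻¹ x = c) := by
  let R : Region := ⟨Set.univ, Set.univ⟩
  have hN : Nice R Set.univ :=
    ⟨fun _ _ _ _ => trivial, fun _ _ _ _ _ => ⟨Set.subset_univ _, Set.subset_univ _⟩,
      fun _ _ _ _ _ => trivial⟩
  have hCC : CC R := step hN (fun l _ n hn => CC_Reg l n hn)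
  have hB : Closed R (Set.range X.T) := by
    constructor
    · rintro x ⟨r, rfl⟩ _ r'
      exact ⟨r', rfl⟩
    · rintro n y h ⟨r, hr⟩ _
      exact absurd hr (X.T_ne_F _ _ _ _ _)
    · rintro x ⟨r, rfl⟩ _
      exact ⟨_, ⟨r, rfl⟩, Eventually.of_forall fun m => (tt_T m r).1⟩
    · rintro x ⟨r, rfl⟩ _
      exact ⟨_, ⟨r, rfl⟩, Eventually.of_forall fun m => (tt_T m r).2⟩
  have hall : ∀ x : X, Star R (Set.range X.T) x := by
    intro x
    induction x using X.ind with
    | hT r => exact Star.base _ ⟨r, rfl⟩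
    | hF r n y h ih => exact Star.fr r n y h ih trivial
  have hfull := hCC _ hB
  obtain ⟨c, -, hc⟩ := hfull.tp x (hall x) trivial
  obtain ⟨c', -, hc'⟩ := hfull.tm x (hall x) trivial
  exact ⟨⟨c, hc⟩, ⟨c', hc'⟩⟩

end Pool.Agent.LO.K
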