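/-
Parametrised version of `Pool.Agent.LO`: the exponents `kk l` are arbitrary, and every word is used
at levels with bounded gaps.   (helper90)
-/
import Pool.Agent.LO.Defs

set_option autoImplicit false
set_option linter.unusedSectionVars false

namespace Pool.Agent.LO.K

open Filter

/-- the exponents used at the levels: an arbitrary sequence of natural numbers -/
class KK where
  kk : ℕ → ℕ

variable [KK]

/-- enumeration of all words, each one at levels of both parities with bounded gaps, with
`(wd l).length ≤ l` -/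
def wd (l : ℕ) : List (Fin 5 × Bool) :=
  match (Encodable.decode (padicValNat 2 (l / 2 + 1)) : Option (List (Fin 5 × Bool))) with
  | some v => if v.length ≤ l then v else []
  | none => []

def cost (l : ℕ) : ℕ := 4928 * w l + 20
def kk (l : ℕ) : ℕ := KK.kk l

/-- the power `W^k` of level `l` -/
noncomputable def V (t : X ≃o X) (l : ℕ) : X ≃o X := (ev t (wd l)) ^ (kk l)

noncomputable def hA (t : X ≃o X) (l : ℕ) : X ≃o X := cl (mv (psi l true)) (V t l)
noncomputable def hB (t : X ≃o X) (l : ℕ) : X ≃o X :=
  cl (mv (psi l false)) ((hA t l)⁻¹ * V t l)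
noncomputable def hh (t : X ≃o X) (l : ℕ) (b : Bool) : X ≃o X := if b then hA t l else hB t l

noncomputable def E (t : X ≃o X) (l : ℕ) (b : Bool) : X ≃o X :=
  mv (fq l b (JJ l)) * hh t l b * (mv (fq l b (JJ l)))⁻¹

noncomputable def PM (t : X ≃o X) (l : ℕ) (b : Bool) (m : ℕ) : X ≃o X :=
  (E t l b * mv dq) ^ m * ((mv dq) ^ m)⁻¹

noncomputable def P (t : X ≃o X) (l : ℕ) (b : Bool) : X ≃o X := limAut (PM t l b)

open Classical in
/-- the automorphism acting on the content of a frame `(r, n)` -/
noncomputable def Q (t : X ≃o X) (r : ℚ) (n : ℤ) : X ≃o X :=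
  if h : ∃ l : ℕ, (M l : ℤ) ∣ n ∧ r = call l n then
    P t h.choose (decide ((2 * (M h.choose : ℤ)) ∣ n)) else 1

noncomputable def Psi (t : X ≃o X) : X ≃o X := fib (Q t)

noncomputable def tt : ℕ → (X ≃o X)
  | 0 => 1
  | m + 1 => Psi (tt m)

/-- the wild generator -/
noncomputable def tinf : X ≃o X := limAut tt

end Pool.Agent.LO.K
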