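import Pool.Agent.LOK.Rel
import Pool.Agent.LOK.Limit
import Pool.Agent.LOK.Words

set_option autoImplicit false
set_option linter.unusedSectionVars false

namespace Pool.Agent.LO.K

variable [KK]

/-! Final assembly -/

/-- the group -/
noncomputable def GG : Subgroup (X ≃o X) := Subgroup.closure (Set.range (gens tinf))

theorem gens_mem (i : Fin 5) : gens tinf i ∈ GG := Subgroup.subset_closure ⟨i, rfl⟩

noncomputable def gG (i : Fin 5) : GG := ⟨gens tinf i, gens_mem i⟩

noncomputable def lG (p : Fin 5 × Bool) : GG := if p.2 then gG p.1 else (gG p.1)⁻¹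

theorem lG_coe (p : Fin 5 × Bool) : ((lG p : GG) : X ≃o X) = lett tinf p := by
  unfold lG lett
  split_ifs <;> rfl

theorem prod_coe (v : List (Fin 5 × Bool)) : (((v.map lG).prod : GG) : X ≃o X) = ev tinf v := by
  induction v with
  | nil => simp [ev_nil]
  | cons p v ih => rw [List.map_cons, List.prod_cons, ev_cons, ← ih, ← lG_coe]; rfl

theorem exists_word (g : GG) : ∃ v, ev tinf v = (g : X ≃o X) := by
  obtain ⟨g, hg⟩ := g
  show ∃ v, ev tinf v = g
  unfold GG at hg
  induction hg using Subgroup.closure_induction with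
  | mem x hx =>
    obtain ⟨i, rfl⟩ := hx
    exact ⟨[(i, true)], by rw [ev_cons, ev_nil, mul_one]; rfl⟩
  | one => exact ⟨[], ev_nil _⟩
  | mul x y _ _ hx hy =>
    obtain ⟨v, hv⟩ := hx
    obtain ⟨v', hv'⟩ := hy
    exact ⟨v ++ v', by rw [ev_append, hv, hv']⟩
  | inv x _ hx =>
    obtain ⟨v, hv⟩ := hx
    exact ⟨iw v, by rw [ev_iw, hv]⟩

theorem oq_ne_one : mv oq ≠ 1 := by
  intro h
  have h1 : mv oq (X.T 1) = X.T 1 := by rw [h]; rfl
  rw [mv_apply] at h1
  have h2 : oq 1 = 1 := X.T_inj h1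
  have h3 : oq ^ (1 : ℤ) = oq := zpow_one _
  have h4 := sq_near 1 (m := 1) (by norm_num) (r := 1) (by norm_num) (s := 1) (Or.inl rfl)
  have h5 : sq 1 = oq := by unfold sq; norm_num
  have h6 : eps 1 = 1 := eps_of_mod_one (by norm_num)
  rw [h5, h3, h2, h6] at h4
  have h7 := theta_near (x := 0) (by norm_num)
  norm_num at h4 h7
  rw [h7] at h4
  norm_num at h4

end Pool.Agent.LO.K
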