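/-
The word length of an element of a group with respect to a finite set.   (helper90)
-/
import Mathlib

set_option autoImplicit false

namespace Pool.Agent.LO.K

/-- Word length `|g|_S`: the least length of a list of elements of `S` and inverses of elements of
`S` whose product is `g`.  For a generating set `S` such a list exists. -/
noncomputable def wordLength {G : Type} [Group G] (S : Finset G) (g : G) : ℕ :=
  sInf {k : ℕ | ∃ l : List G, l.length = k ∧ (∀ x ∈ l, x ∈ S ∨ x⁻¹ ∈ S) ∧ l.prod = g}

end Pool.Agent.LO.K
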