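/-
Word length with respect to a finite generating set, and the counting argument.   (helper90)
-/
import Pool.Agent.LOK.WDef

set_option autoImplicit false

namespace Pool.Agent.LO.K

open Filter

section

variable {G : Type} [Group G]

theorem wordLength_le {S : Finset G} {g : G} (l : List G) (hl : ∀ x ∈ l, x ∈ S ∨ x⁻¹ ∈ S)
    (h : l.prod = g) : wordLength S g ≤ l.length :=
  Nat.sInf_le ⟨l, rfl, hl, h⟩

theorem exists_list {S : Finset G} (hS : Subgroup.closure (S : Set G) = ⊤) (g : G) :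
    ∃ l : List G, (∀ x ∈ l, x ∈ S ∨ x⁻¹ ∈ S) ∧ l.prod = g := by
  have hg : g ∈ Subgroup.closure (S : Set G) := by rw [hS]; trivial
  induction hg using Subgroup.closure_induction with
  | mem x hx => exact ⟨[x], by simpa using Or.inl hx, by simp⟩
  | one => exact ⟨[], by simp, rfl⟩
  | mul x y _ _ hx hy =>
    obtain ⟨l, hl, hp⟩ := hx
    obtain ⟨l', hl', hp'⟩ := hy
    refine ⟨l ++ l', ?_, by rw [List.prod_append, hp, hp']⟩
    intro z hz
    rcases List.mem_append.1 hz with h | h
    · exact hl z h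
    · exact hl' z h
  | inv x _ hx =>
    obtain ⟨l, hl, hp⟩ := hx
    refine ⟨(l.map (·⁻¹)).reverse, ?_, ?_⟩
    · intro z hz
      rw [List.mem_reverse, List.mem_map] at hz
      obtain ⟨y, hy, rfl⟩ := hz
      rcases hl y hy with h | h
      · right; simpa using h
      · left; exact h
    · rw [← List.prod_inv_reverse, hp]

theorem exists_list_length {S : Finset G} (hS : Subgroup.closure (S : Set G) = ⊤) (g : G) :
    ∃ l : List G, l.length = wordLength S g ∧ (∀ x ∈ l, x ∈ S ∨ x⁻¹ ∈ S) ∧ l.prod = g := by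
  obtain ⟨l, hl, hp⟩ := exists_list hS g
  exact Nat.sInf_mem (s := {k : ℕ | ∃ l : List G, l.length = k ∧
    (∀ x ∈ l, x ∈ S ∨ x⁻¹ ∈ S) ∧ l.prod = g}) ⟨l.length, l, rfl, hl, hp⟩

theorem wordLength_one (S : Finset G) : wordLength S (1 : G) = 0 := by
  have := wordLength_le (S := S) (g := 1) [] (by simp) rfl
  simpa using this

theorem wordLength_mul {S : Finset G} (hS : Subgroup.closure (S : Set G) = ⊤) (a b : G) :
    wordLength S (a * b) ≤ wordLength S a + wordLength S b := by
  obtain ⟨l, hl, hm, hp⟩ := exists_list_length hS a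
  obtain ⟨l', hl', hm', hp'⟩ := exists_list_length hS b
  rw [← hl, ← hl', ← List.length_append]
  refine wordLength_le _ ?_ (by rw [List.prod_append, hp, hp'])
  intro z hz
  rcases List.mem_append.1 hz with h | h
  · exact hm z h
  · exact hm' z h

theorem wordLength_inv {S : Finset G} (hS : Subgroup.closure (S : Set G) = ⊤) (a : G) :
    wordLength S a⁻¹ ≤ wordLength S a := by
  obtain ⟨l, hl, hm, hp⟩ := exists_list_length hS a
  rw [← hl]
  have : ((l.map (·⁻¹)).reverse).length = l.length := by simp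
  rw [← this]
  refine wordLength_le _ ?_ (by rw [← List.prod_inv_reverse, hp])
  intro z hz
  rw [List.mem_reverse, List.mem_map] at hz
  obtain ⟨y, hy, rfl⟩ := hz
  rcases hm y hy with h | h
  · right; simpa using h
  · left; exact h

theorem wordLength_prod_le {S : Finset G} (hS : Subgroup.closure (S : Set G) = ⊤) {c : ℕ}
    (l : List G) (h : ∀ x ∈ l, wordLength S x ≤ c) : wordLength S l.prod ≤ c * l.length := by
  induction l with
  | nil => simp [wordLength_one]
  | cons x l ih =>
    rw [List.prod_cons, List.length_cons]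
    have h1 := wordLength_mul hS x l.prod
    have h2 := h x (by simp)
    have h3 := ih (fun y hy => h y (List.mem_cons_of_mem _ hy))
    nlinarith

/-- two finite generating sets give comparable lengths -/
theorem wordLength_compare {S T : Finset G} (hS : Subgroup.closure (S : Set G) = ⊤)
    (hT : Subgroup.closure (T : Set G) = ⊤) :
    ∃ c : ℕ, ∀ g : G, wordLength T g ≤ c * wordLength S g := by
  classical
  refine ⟨∑ x ∈ S, wordLength T x, fun g => ?_⟩
  obtain ⟨l, hl, hm, hp⟩ := exists_list_length hS g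
  rw [← hl, ← hp]
  refine wordLength_prod_le hT l (fun x hx => ?_)
  rcases hm x hx with h | h
  · exact Finset.single_le_sum (f := fun x => wordLength T x) (fun _ _ => Nat.zero_le _) h
  · have h1 : wordLength T x ≤ wordLength T x⁻¹ := by
      simpa using wordLength_inv hT x⁻¹
    exact h1.trans
      (Finset.single_le_sum (f := fun x => wordLength T x) (fun _ _ => Nat.zero_le _) h)

theorem wordLength_pow {S : Finset G} (hS : Subgroup.closure (S : Set G) = ⊤) (g : G) (n : ℕ) :
    wordLength S (g ^ n) ≤ n * wordLength S g := by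
  induction n with
  | zero => simp [wordLength_one]
  | succ n ih =>
    rw [pow_succ]
    have := wordLength_mul hS (g ^ n) g
    nlinarith

end

/-- the counting argument: `f n = |g ^ n|` is subadditive and small at the exponents `2 ^ (l ^ 2)`
for levels `l` with bounded gaps -/
theorem count_aux (f : ℕ → ℕ) (h0 : f 0 = 0) (hadd : ∀ m n, f (m + n) ≤ f m + f n)
    (L D : ℕ) (hD : ∀ N, L ≤ N → ∃ l, N ≤ l ∧ l < N + D ∧ f (2 ^ (l ^ 2)) ≤ 2 ^ (10 * l + 14)) :
    ∃ c : ℕ, ∀ N n : ℕ, n < 2 ^ (N ^ 2) → f n ≤ 2 ^ (c * N) := by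
  have hmul : ∀ k m, f (k * m) ≤ k * f m := by
    intro k m
    induction k with
    | zero => simp [h0]
    | succ k ih =>
      have := hadd (k * m) m
      rw [Nat.succ_mul, Nat.succ_mul]
      omega
  refine ⟨2 * D + 26 + (L + D) + f 1, fun N => ?_⟩
  set c := 2 * D + 26 + (L + D) + f 1 with hc
  induction N using Nat.strong_induction_on with
  | _ N ih =>
    intro n hn
    rcases Nat.lt_or_ge (L + D) N with hN | hN
    · obtain ⟨l, hl1, hl2, hl3⟩ := hD (N - D) (by omega)
      have hlN : l < N := by omega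
      have hr : f (n % 2 ^ (l ^ 2)) ≤ 2 ^ (c * l) :=
        ih l hlN _ (Nat.mod_lt _ (by positivity))
      have hq : n / 2 ^ (l ^ 2) < 2 ^ (2 * D * N) := by
        rw [Nat.div_lt_iff_lt_mul (by positivity), ← pow_add]
        refine hn.trans_le (Nat.pow_le_pow_right (by norm_num) ?_)
        have h1 : N ≤ l + D := by omega
        obtain ⟨d, hd⟩ := Nat.exists_eq_add_of_le hlN.le
        have h2 : d ≤ D := by omega
        subst hd
        nlinarith
      have hsplit : f n ≤ (n / 2 ^ (l ^ 2)) * f (2 ^ (l ^ 2)) + f (n % 2 ^ (l ^ 2)) := by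
        have h1 := hadd (n / 2 ^ (l ^ 2) * 2 ^ (l ^ 2)) (n % 2 ^ (l ^ 2))
        rw [Nat.div_add_mod'] at h1
        exact h1.trans (Nat.add_le_add_right (hmul _ _) _)
      have h1 : (n / 2 ^ (l ^ 2)) * f (2 ^ (l ^ 2)) ≤ 2 ^ (2 * D * N) * 2 ^ (10 * l + 14) :=
        Nat.mul_le_mul hq.le hl3
      have h2 : 2 ^ (2 * D * N) * 2 ^ (10 * l + 14) ≤ 2 ^ (c * N - 1) := by
        rw [← pow_add]
        refine Nat.pow_le_pow_right (by norm_num) ?_
        have h3 : 2 * D * N + 26 * N ≤ c * N := by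
          rw [← Nat.add_mul]
          exact Nat.mul_le_mul_right _ (by omega)
        have h4 : 1 ≤ N := by omega
        omega
      have h3 : 2 ^ (c * l) ≤ 2 ^ (c * N - 1) := by
        refine Nat.pow_le_pow_right (by norm_num) ?_
        obtain ⟨d, hd⟩ := Nat.exists_eq_add_of_lt hlN
        have h4 : c * N = c * l + c * d + c := by rw [hd]; ring
        omega
      have h4 : 2 ^ (c * N) = 2 ^ (c * N - 1) + 2 ^ (c * N - 1) := by
        have h5 : c * N = (c * N - 1) + 1 := by
          have : 0 < c * N := Nat.mul_pos (by omega) (by omega)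
          omega
        conv_lhs => rw [h5, pow_succ]
        ring
      omega
    · rcases Nat.eq_zero_or_pos N with rfl | hpos
      · have : n = 0 := by simpa using hn
        subst this
        simp [h0]
      · have h1 : f n ≤ n * f 1 := by simpa using hmul n 1
        have h2 : f 1 ≤ 2 ^ (f 1) := Nat.lt_two_pow_self.le
        have h3 : n * f 1 ≤ 2 ^ (N ^ 2) * 2 ^ (f 1) := Nat.mul_le_mul hn.le h2
        rw [← pow_add] at h3
        refine h1.trans (h3.trans (Nat.pow_le_pow_right (by norm_num) ?_))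
        have h4 : N ^ 2 ≤ (L + D) * N := by rw [sq]; exact Nat.mul_le_mul_right _ hN
        have h5 : f 1 ≤ f 1 * N := Nat.le_mul_of_pos_right _ hpos
        have h6 : c * N = (2 * D + 26) * N + (L + D) * N + f 1 * N := by rw [hc]; ring
        omega

theorem count_real (f : ℕ → ℕ) (c : ℕ) (h : ∀ N n : ℕ, n < 2 ^ (N ^ 2) → f n ≤ 2 ^ (c * N)) :
    ∀ n : ℕ, 2 ≤ n → (f n : ℝ) ≤ Real.exp ((2 * c : ℕ) * √(Real.log n)) := by
  intro n hn
  set N := Nat.sqrt (Nat.log 2 n) + 1 with hN
  have h1 : n < 2 ^ (N ^ 2) := by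
    have h2 : Nat.log 2 n < N ^ 2 := by
      have := Nat.lt_succ_sqrt (Nat.log 2 n)
      rw [sq]; exact this
    exact (Nat.lt_pow_succ_log_self (by norm_num) n).trans_le
      (Nat.pow_le_pow_right (by norm_num) h2)
  have h2 := h N n h1
  have h3 : (f n : ℝ) ≤ 2 ^ (c * N) := by exact_mod_cast h2
  refine h3.trans ?_
  have hlog1 : 1 ≤ Nat.log 2 n := Nat.log_pos (by norm_num) hn
  have hs1 : 1 ≤ Nat.sqrt (Nat.log 2 n) := Nat.sqrt_pos.2 hlog1
  have hn0 : (0 : ℝ) < n := by exact_mod_cast (by omega : 0 < n)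
  -- sqrt comparison
  have h4 : ((Nat.log 2 n : ℕ) : ℝ) * Real.log 2 ≤ Real.log n := by
    rw [← Real.log_pow]
    refine Real.log_le_log (by positivity) ?_
    exact_mod_cast Nat.pow_log_le_self 2 (by omega)
  have h5 : ((Nat.sqrt (Nat.log 2 n) : ℕ) : ℝ) ^ 2 ≤ Nat.log 2 n := by
    have := Nat.sqrt_le (Nat.log 2 n)
    rw [sq]
    exact_mod_cast this
  have hlog2 : (0 : ℝ) < Real.log 2 := Real.log_pos (by norm_num)
  have hlog2' : Real.log 2 < 1 := by
    have := Real.log_two_lt_d9
    linarith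
  have h6 : ((Nat.sqrt (Nat.log 2 n) : ℕ) : ℝ) * Real.log 2 ≤ √(Real.log n) := by
    apply Real.le_sqrt_of_sq_le
    rw [mul_pow]
    calc ((Nat.sqrt (Nat.log 2 n) : ℕ) : ℝ) ^ 2 * Real.log 2 ^ 2
        ≤ (Nat.log 2 n : ℕ) * Real.log 2 := by
          have h7 : Real.log 2 ^ 2 ≤ Real.log 2 := by nlinarith
          have h8 : (0 : ℝ) ≤ (Nat.log 2 n : ℕ) := Nat.cast_nonneg _
          calc ((Nat.sqrt (Nat.log 2 n) : ℕ) : ℝ) ^ 2 * Real.log 2 ^ 2
              ≤ (Nat.log 2 n : ℕ) * Real.log 2 ^ 2 := by gcongr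
            _ ≤ (Nat.log 2 n : ℕ) * Real.log 2 := by gcongr
      _ ≤ Real.log n := h4
  have h7 : ((c * N : ℕ) : ℝ) * Real.log 2 ≤ (2 * c : ℕ) * √(Real.log n) := by
    have h8 : (N : ℝ) ≤ 2 * (Nat.sqrt (Nat.log 2 n) : ℕ) := by
      rw [hN]
      push_cast
      have : (1 : ℝ) ≤ (Nat.sqrt (Nat.log 2 n) : ℕ) := by exact_mod_cast hs1
      linarith
    push_cast
    have h9 : (0 : ℝ) ≤ c := Nat.cast_nonneg _
    calc (c : ℝ) * N * Real.log 2 ≤ c * (2 * (Nat.sqrt (Nat.log 2 n) : ℕ)) * Real.log 2 := by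
          gcongr
      _ = 2 * c * (((Nat.sqrt (Nat.log 2 n) : ℕ) : ℝ) * Real.log 2) := by ring
      _ ≤ 2 * c * √(Real.log n) := by gcongr
  calc (2 : ℝ) ^ (c * N) = Real.exp (((c * N : ℕ) : ℝ) * Real.log 2) := by
        rw [← Real.rpow_natCast, Real.rpow_def_of_pos (by norm_num),
          mul_comm (Real.log 2)]
    _ ≤ _ := Real.exp_le_exp.2 h7

theorem tendsto_sub (C : ℝ) : Tendsto (fun x : ℝ => C * √x - x) atTop atBot := by
  have h1 : Tendsto (fun x : ℝ => √x) atTop atTop := Real.tendsto_sqrt_atTop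
  have h2 : Tendsto (fun x : ℝ => √x * (√x - C)) atTop atTop :=
    h1.atTop_mul_atTop₀ (tendsto_atTop_add_const_right _ (-C) h1)
  have h3 : Tendsto (fun x : ℝ => -(√x * (√x - C))) atTop atBot := tendsto_neg_atTop_atBot.comp h2
  refine h3.congr' ?_
  filter_upwards [eventually_ge_atTop (0 : ℝ)] with x hx
  have := Real.mul_self_sqrt hx
  nlinarith

theorem tendsto_real (f : ℕ → ℕ) (C : ℝ)
    (h : ∀ n : ℕ, 2 ≤ n → (f n : ℝ) ≤ Real.exp (C * √(Real.log n))) :
    Tendsto (fun n : ℕ => (f n : ℝ) / n) atTop (nhds 0) := by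
  have h1 : Tendsto (fun n : ℕ => Real.exp (C * √(Real.log n) - Real.log n)) atTop (nhds 0) :=
    Real.tendsto_exp_atBot.comp ((tendsto_sub C).comp
      (Real.tendsto_log_atTop.comp tendsto_natCast_atTop_atTop))
  refine squeeze_zero' (Eventually.of_forall fun n => by positivity) ?_ h1
  filter_upwards [eventually_ge_atTop 2] with n hn
  have hn0 : (0 : ℝ) < n := by exact_mod_cast (by omega : 0 < n)
  rw [Real.exp_sub, Real.exp_log hn0]
  exact div_le_div_of_nonneg_right (h n hn) hn0.le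

end Pool.Agent.LO.K
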