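/-
The final theorem: for every function `φ` tending to infinity a left ordered group with five
generators in which every element is strongly distorted.   (helper90)
-/
import Pool.Agent.LOK.Group
import Pool.Agent.LOK.WLen

set_option autoImplicit false
set_option linter.unusedSectionVars false

namespace Pool.Agent.LO.K

open Filter

section

variable [KK]

open Classical in
/-- the five generators -/
noncomputable def SS : Finset GG := Finset.univ.image gG

theorem closure_SS : Subgroup.closure (SS : Set GG) = ⊤ := by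
  have h := Subgroup.closure_closure_coe_preimage (k := Set.range (gens tinf))
  have h1 : (SS : Set GG) =
      ((↑) : (Subgroup.closure (Set.range (gens tinf))) → (X ≃o X)) ⁻¹'
        (Set.range (gens tinf)) := by
    ext x
    simp only [SS, Finset.coe_image, Finset.coe_univ, Set.image_univ, Set.mem_range,
      Set.mem_preimage]
    constructor
    · rintro ⟨i, rfl⟩
      exact ⟨i, rfl⟩
    · rintro ⟨i, hi⟩
      exact ⟨i, Subtype.ext hi⟩
  rw [h1]
  exact h

theorem card_SS : (SS : Finset GG).card ≤ 5 := by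
  classical
  exact Finset.card_image_le

/-- the order: compare at the first point of a well-order of `X` where the two maps differ -/
def rr (a b : GG) : Prop :=
  ∃ x : X, (∀ y, WellOrderingRel y x → (a : X ≃o X) y = (b : X ≃o X) y) ∧
    (a : X ≃o X) x < (b : X ≃o X) x

theorem rr_irrefl (a : GG) : ¬ rr a a := by
  rintro ⟨x, _, hx⟩
  exact lt_irrefl _ hx

theorem rr_trans {a b c : GG} (h1 : rr a b) (h2 : rr b c) : rr a c := by
  obtain ⟨x, hx, hx'⟩ := h1
  obtain ⟨y, hy, hy'⟩ := h2
  rcases trichotomous_of WellOrderingRel x y with h | h | h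
  · exact ⟨x, fun z hz => (hx z hz).trans (hy z (trans_of _ hz h)), by rw [← hy x h]; exact hx'⟩
  · subst h
    exact ⟨x, fun z hz => (hx z hz).trans (hy z hz), hx'.trans hy'⟩
  · exact ⟨y, fun z hz => (hx z (trans_of _ hz h)).trans (hy z hz), by rw [hx y h]; exact hy'⟩

theorem rr_total {a b : GG} (hab : a ≠ b) : rr a b ∨ rr b a := by
  have h1 : ∃ x, (a : X ≃o X) x ≠ (b : X ≃o X) x := by
    by_contra h
    push Not at h
    exact hab (Subtype.ext (RelIso.ext h))
  have hwf : WellFounded (WellOrderingRel : X → X → Prop) := IsWellFounded.wf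
  obtain ⟨x, hx, hmin⟩ := hwf.has_min {x | (a : X ≃o X) x ≠ (b : X ≃o X) x} h1
  have h2 : ∀ y, WellOrderingRel y x → (a : X ≃o X) y = (b : X ≃o X) y := by
    intro y hy
    by_contra h
    exact hmin y h hy
  rcases lt_or_gt_of_ne hx with h | h
  · exact Or.inl ⟨x, h2, h⟩
  · exact Or.inr ⟨x, fun y hy => (h2 y hy).symm, h⟩

theorem rr_left (f g h : GG) (hgh : rr g h) : rr (f * g) (f * h) := by
  obtain ⟨x, hx, hx'⟩ := hgh
  refine ⟨x, fun y hy => ?_, ?_⟩
  · show (f : X ≃o X) ((g : X ≃o X) y) = (f : X ≃o X) ((h : X ≃o X) y)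
    rw [hx y hy]
  · show (f : X ≃o X) ((g : X ≃o X) x) < (f : X ≃o X) ((h : X ≃o X) x)
    exact (f : X ≃o X).strictMono hx'

open Classical in
/-- the left order -/
@[instance_reducible]
noncomputable def linOrd : LinearOrder GG where
  le a b := a = b ∨ rr a b
  lt a b := rr a b
  le_refl a := Or.inl rfl
  le_trans a b c := by
    rintro (rfl | h1) (rfl | h2)
    · exact Or.inl rfl
    · exact Or.inr h2
    · exact Or.inr h1
    · exact Or.inr (rr_trans h1 h2)
  le_antisymm a b := by
    rintro (rfl | h1) (h | h2)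
    · rfl
    · rfl
    · exact h.symm
    · exact absurd (rr_trans h1 h2) (rr_irrefl a)
  lt_iff_le_not_ge a b := by
    constructor
    · intro h
      refine ⟨Or.inr h, ?_⟩
      rintro (rfl | h2)
      · exact rr_irrefl _ h
      · exact rr_irrefl _ (rr_trans h h2)
    · rintro ⟨rfl | h, h2⟩
      · exact absurd (Or.inl rfl) h2
      · exact h
  le_total a b := by
    rcases eq_or_ne a b with h | h
    · exact Or.inl (Or.inl h)
    · rcases rr_total h with h | h
      · exact Or.inl (Or.inr h)
      · exact Or.inr (Or.inr h)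
  toDecidableLE := Classical.decRel _

theorem nontrivial_GG : Nontrivial GG := by
  refine ⟨⟨gG 0, 1, ?_⟩⟩
  intro h
  have h1 : ((gG 0 : GG) : X ≃o X) = 1 := by rw [h]; rfl
  exact oq_ne_one h1

theorem short {l : ℕ} {v : List (Fin 5 × Bool)} {g : GG} (hg : ev tinf v = (g : X ≃o X))
    (hv : wd l = v) : wordLength SS (g ^ (kk l)) ≤ cost l := by
  classical
  obtain ⟨v', hlen, hv'⟩ := exists_short tinf_HP tinf_Trp Psi_tinf l
  refine (wordLength_le (v'.map lG) ?_ ?_).trans (by rw [List.length_map]; exact hlen)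
  · intro x hx
    rw [List.mem_map] at hx
    obtain ⟨p, _, rfl⟩ := hx
    unfold lG
    split_ifs with hp
    · left
      exact Finset.mem_image_of_mem _ (Finset.mem_univ _)
    · right
      rw [inv_inv]
      exact Finset.mem_image_of_mem _ (Finset.mem_univ _)
  · apply Subtype.ext
    rw [prod_coe, hv', hv, hg]
    rfl

end

theorem main (φ : ℕ → ℕ) (hφ : Tendsto φ atTop atTop) :
    ∃ (G : Type) (_ : Group G) (_ : LinearOrder G),
      Nontrivial G ∧ (∀ f g h : G, g < h → f * g < f * h) ∧
      (∃ S : Finset G, S.card ≤ 5 ∧ Subgroup.closure (S : Set G) = ⊤) ∧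
      ∀ S : Finset G, Subgroup.closure (S : Set G) = ⊤ → ∀ g : G,
        Tendsto (fun n : ℕ => (wordLength S (g ^ n) : ℝ) / n) atTop (nhds 0) ∧
        (∃ C : ℝ, ∀ n : ℕ, 2 ≤ n →
          (wordLength S (g ^ n) : ℝ) ≤ Real.exp (C * √(Real.log n))) ∧
        ∀ N : ℕ, ∃ n, N ≤ n ∧ wordLength S (g ^ n) ≤ φ n := by
  have hF : ∀ l : ℕ, ∃ n, l ≤ n ∧ l * cost l ≤ φ n := by
    intro l
    obtain ⟨n, hn1, hn2⟩ := ((hφ.eventually_ge_atTop (l * cost l)).and
      (eventually_ge_atTop l)).exists
    exact ⟨n, hn2, hn1⟩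
  choose F hF1 hF2 using hF
  let _ : KK := ⟨fun l => if l % 2 = 0 then 2 ^ (l ^ 2) else F l⟩
  refine ⟨GG, inferInstance, linOrd, nontrivial_GG, fun f g h hgh => rr_left f g h hgh,
    ⟨SS, card_SS, closure_SS⟩, fun S hS g => ?_⟩
  obtain ⟨v, hv⟩ := exists_word g
  obtain ⟨c, hc⟩ := wordLength_compare closure_SS hS
  have hsq : ∃ c : ℕ, ∀ N n : ℕ, n < 2 ^ (N ^ 2) → wordLength S (g ^ n) ≤ 2 ^ (c * N) := by
    obtain ⟨c', hc'⟩ := count_aux (fun n => wordLength SS (g ^ n))
      (by simp [wordLength_one])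
      (fun m n => by
        simp only [pow_add]
        exact wordLength_mul closure_SS _ _)
      v.length (8 * 2 ^ (Encodable.encode v)) (by
        intro N hN
        obtain ⟨l, h1, h2, h3, h4⟩ := wd_gap v N hN 0 (by norm_num)
        refine ⟨l, h1, h2, ?_⟩
        have h5 := short hv h4
        have h6 : kk l = 2 ^ (l ^ 2) := if_pos h3
        rw [h6] at h5
        refine h5.trans ?_
        unfold cost w
        have h7 : 0 < 2 ^ (10 * l) := by positivity
        rw [pow_succ, pow_add]
        omega)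
    refine ⟨c' + c, fun N n hn => ?_⟩
    rcases Nat.eq_zero_or_pos N with rfl | hN
    · have : n = 0 := by simpa using hn
      subst this
      simp [wordLength_one]
    · refine (hc _).trans ?_
      calc c * wordLength SS (g ^ n) ≤ 2 ^ c * 2 ^ (c' * N) :=
            Nat.mul_le_mul Nat.lt_two_pow_self.le (hc' N n hn)
        _ = 2 ^ (c + c' * N) := by rw [pow_add]
        _ ≤ 2 ^ ((c' + c) * N) := by
            refine Nat.pow_le_pow_right (by norm_num) ?_
            have : c ≤ c * N := Nat.le_mul_of_pos_right _ hN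
            rw [Nat.add_mul]
            omega
  obtain ⟨c', hc'⟩ := hsq
  have hreal := count_real (fun n => wordLength S (g ^ n)) c' hc'
  refine ⟨tendsto_real _ _ hreal, ⟨_, hreal⟩, fun N => ?_⟩
  obtain ⟨l, h1, _, h3, h4⟩ := wd_gap v (max v.length (max N c)) (le_max_left _ _) 1 (by norm_num)
  have h5 := short hv h4
  have h6 : kk l = F l := if_neg (by omega)
  rw [h6] at h5
  have h7 : N ≤ l := (le_max_left _ _).trans ((le_max_right _ _).trans h1)
  have h8 : c ≤ l := (le_max_right _ _).trans ((le_max_right _ _).trans h1)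
  refine ⟨F l, h7.trans (hF1 l), ?_⟩
  calc wordLength S (g ^ F l) ≤ c * wordLength SS (g ^ F l) := hc _
    _ ≤ l * cost l := Nat.mul_le_mul h8 h5
    _ ≤ φ (F l) := hF2 l

end Pool.Agent.LO.K
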