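import Pool.Agent.LOK.Defs
import Pool.Agent.LO.Compress
import Pool.Agent.LO.Escape
import Pool.Agent.LO.Fib

set_option autoImplicit false
set_option linter.unusedSectionVars false

namespace Pool.Agent.LO.K

variable [KK]

open Filter

/-! Package LO-E: supports and convergence of the programs.  Everything holds for arbitrary `t`. -/

theorem hA_apply (t : X ≃o X) (l : ℕ) (x : X) :
    hA t l x = max (min (V t l x) (mv (psi l true) x)) ((mv (psi l true))⁻¹ x) :=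
  cl_apply _ _ _

theorem hA_inv_apply (t : X ≃o X) (l : ℕ) (x : X) :
    (hA t l)⁻¹ x = max (min ((V t l)⁻¹ x) (mv (psi l true) x)) ((mv (psi l true))⁻¹ x) := by
  rw [hA, cl_inv (fun x => le_mv (le_psi l true) x)]
  exact cl_apply _ _ _

theorem hB_apply (t : X ≃o X) (l : ℕ) (x : X) :
    hB t l x = max (min ((hA t l)⁻¹ (V t l x)) (mv (psi l false) x))
      ((mv (psi l false))⁻¹ x) :=
  cl_apply _ _ _

theorem hB_inv_apply (t : X ≃o X) (l : ℕ) (x : X) :
    (hB t l)⁻¹ x = max (min ((V t l)⁻¹ (hA t l x)) (mv (psi l false) x))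
      ((mv (psi l false))⁻¹ x) := by
  rw [hB, cl_inv (fun x => le_mv (le_psi l false) x), mul_inv_rev, inv_inv]
  exact cl_apply _ _ _

theorem prog_inv_fix {α : Type} [LinearOrder α] {g : α ≃o α} {x : α} (h : g x = x) :
    g⁻¹ x = x := by
  conv_lhs => rw [← h]
  exact g.symm_apply_apply x

theorem hh_fix (t : X ≃o X) (l : ℕ) (b : Bool) {x : X}
    (h : ∀ n, isC l b n → 336 * (w l : ℚ) ≤ |x.hd - n|) :
    hh t l b x = x ∧ (hh t l b)⁻¹ x = x := by
  have h1 : mv (psi l b) x = x := by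
    rw [mv_apply, psi_fix l b h, X.setHd_hd]
  have h2 : hh t l b x = x := by
    cases b
    · exact cl_fix _ h1
    · exact cl_fix _ h1
  exact ⟨h2, prog_inv_fix h2⟩

/-- an automorphism fixing two terminals preserves the heads strictly between them -/
theorem prog_between {g : X ≃o X} {a b : ℚ} (ha : g (X.T a) = X.T a) (hb : g (X.T b) = X.T b)
    {x : X} (h1 : a < x.hd) (h2 : x.hd < b) : a ≤ (g x).hd ∧ (g x).hd ≤ b := by
  have h3 : X.T a < x := X.lt_of_hd_lt (by rw [X.hd_T]; exact h1)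
  have h4 : x < X.T b := X.lt_of_hd_lt (by rw [X.hd_T]; exact h2)
  have h5 : X.T a < g x := by rw [← ha]; exact g.lt_iff_lt.2 h3
  have h6 : g x < X.T b := by rw [← hb]; exact g.lt_iff_lt.2 h4
  have h7 := X.hd_le_of_le h5.le
  have h8 := X.hd_le_of_le h6.le
  rw [X.hd_T] at h7 h8
  exact ⟨h7, h8⟩

theorem prog_far (l : ℕ) (b : Bool) {n n' : ℤ} (hn : isC l b n) (hn' : isC l b n')
    (hne : n ≠ n') : 1024 * (w l : ℚ) ≤ |(n : ℚ) - n'| := by
  by_contra hlt
  apply hne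
  apply isC_unique hn hn'
  have hM := flow_M_eq l
  have h2 : |(n : ℚ) - n'| < 2 * (M l : ℚ) := by push Not at hlt; linarith
  have h3 : ((|n - n'| : ℤ) : ℚ) < ((2 * (M l : ℤ) : ℤ) : ℚ) := by push_cast; exact h2
  exact_mod_cast h3

theorem prog_w_ge (l : ℕ) : (2 : ℚ) ≤ w l := by
  have := add_two_le_w l
  have h2 : 2 ≤ w l := by omega
  exact_mod_cast h2

/-- if the distance to one centre is between `336w` and `336 w+1/4` then all centres are far -/
theorem prog_all_far (l : ℕ) (b : Bool) {n : ℤ} (hn : isC l b n) {r : ℚ}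
    (h1 : 336 * (w l : ℚ) ≤ |r - n|) (h2 : |r - n| ≤ 336 * w l + 1 / 4) :
    ∀ n', isC l b n' → 336 * (w l : ℚ) ≤ |r - n'| := by
  intro n' hn'
  by_cases he : n = n'
  · rw [← he]; exact h1
  · have h3 := prog_far l b hn hn' he
    have h4 : |(n : ℚ) - n'| ≤ |r - n| + |r - n'| := by
      have : (n : ℚ) - n' = (r - n') - (r - n) := by ring
      rw [this]
      have := abs_sub (r - (n' : ℚ)) (r - n)
      linarith
    have := prog_w_ge l
    linarith

theorem hh_near (t : X ≃o X) (l : ℕ) (b : Bool) {n : ℤ} (hn : isC l b n) {x : X}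
    (h : |x.hd - n| ≤ JJ l + 1 / 4) :
    |(hh t l b x).hd - n| ≤ JJ l + 1 / 4 ∧ |((hh t l b)⁻¹ x).hd - n| ≤ JJ l + 1 / 4 := by
  have hJ : (JJ l : ℚ) = 336 * w l := by unfold JJ; push_cast; ring
  have hw := prog_w_ge l
  rw [hJ] at h ⊢
  by_cases hc : 336 * (w l : ℚ) ≤ |x.hd - n|
  · obtain ⟨h1, h2⟩ := hh_fix t l b (prog_all_far l b hn hc h)
    rw [h1, h2]
    exact ⟨h, h⟩
  · push Not at hc
    obtain ⟨h1, h2⟩ := abs_lt.1 hc
    have ha : ∀ s : ℚ, |s| = 1 → hh t l b (X.T (n + s * (336 * w l))) =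
        X.T (n + s * (336 * w l)) ∧ (hh t l b)⁻¹ (X.T (n + s * (336 * w l))) =
        X.T (n + s * (336 * w l)) := by
      intro s hs
      have e1 : |(X.T (n + s * (336 * w l))).hd - n| = 336 * w l := by
        rw [X.hd_T]
        have : (n : ℚ) + s * (336 * w l) - n = s * (336 * w l) := by ring
        rw [this, abs_mul, hs, one_mul, abs_of_nonneg (by linarith)]
      exact hh_fix t l b (prog_all_far l b hn (by rw [e1]) (by rw [e1]; linarith))
    obtain ⟨a1, a2⟩ := ha 1 (by norm_num)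
    obtain ⟨b1, b2⟩ := ha (-1) (by norm_num)
    obtain ⟨c1, c2⟩ := prog_between b1 a1 (x := x) (by linarith) (by linarith)
    obtain ⟨d1, d2⟩ := prog_between b2 a2 (x := x) (by linarith) (by linarith)
    constructor
    · rw [abs_le]; constructor <;> linarith
    · rw [abs_le]; constructor <;> linarith

theorem prog_JJ_lt (l : ℕ) : JJ l < M l := by
  have h1 := M_eq l
  have h2 := w_pos l
  unfold JJ
  omega

theorem prog_E_apply (t : X ≃o X) (l : ℕ) (b : Bool) (x : X) :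
    E t l b x = mv (fq l b (JJ l)) (hh t l b ((mv (fq l b (JJ l)))⁻¹ x)) := rfl

theorem prog_E_inv_apply (t : X ≃o X) (l : ℕ) (b : Bool) (x : X) :
    (E t l b)⁻¹ x = mv (fq l b (JJ l)) ((hh t l b)⁻¹ ((mv (fq l b (JJ l)))⁻¹ x)) := by
  have : (E t l b)⁻¹ = mv (fq l b (JJ l)) * (hh t l b)⁻¹ * (mv (fq l b (JJ l)))⁻¹ := by
    rw [E, mul_inv_rev, mul_inv_rev, inv_inv, mul_assoc]
  rw [this]
  rfl

theorem prog_hd_mv (φ : ℚ ≃o ℚ) (x : X) : (mv φ x).hd = φ x.hd := by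
  rw [mv_apply, X.hd_setHd]

theorem prog_hd_mv_inv (φ : ℚ ≃o ℚ) (x : X) : ((mv φ)⁻¹ x).hd = φ⁻¹ x.hd := by
  rw [mv_inv_apply, X.hd_setHd]

theorem prog_apply_inv {α : Type} [LinearOrder α] (g : α ≃o α) (x : α) : g (g⁻¹ x) = x :=
  g.apply_symm_apply x

theorem E_fix (t : X ≃o X) (l : ℕ) (b : Bool) {x : X}
    (h : ∀ n, isC l b n → 1 / 4 < |x.hd - n|) :
    E t l b x = x ∧ (E t l b)⁻¹ x = x := by
  have h1 : ∀ n, isC l b n → 336 * (w l : ℚ) ≤ |((mv (fq l b (JJ l)))⁻¹ x).hd - n| := by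
    intro n hn
    have h2 := fq_iff l b hn (prog_JJ_lt l) ((fq l b (JJ l))⁻¹ x.hd)
    rw [prog_apply_inv] at h2
    have h3 : ¬ |(fq l b (JJ l))⁻¹ x.hd - n| ≤ JJ l + 1 / 4 := by
      intro h4
      exact absurd (h2.2 h4) (not_le.2 (h n hn))
    rw [prog_hd_mv_inv]
    have hJ : (JJ l : ℚ) = 336 * w l := by unfold JJ; push_cast; ring
    push Not at h3
    linarith
  obtain ⟨h4, h5⟩ := hh_fix t l b h1
  constructor
  · rw [prog_E_apply, h4, prog_apply_inv]
  · rw [prog_E_inv_apply, h5, prog_apply_inv]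

theorem E_near (t : X ≃o X) (l : ℕ) (b : Bool) {n : ℤ} (hn : isC l b n) {x : X}
    (h : |x.hd - n| ≤ 1 / 4) :
    |(E t l b x).hd - n| ≤ 1 / 4 ∧ |((E t l b)⁻¹ x).hd - n| ≤ 1 / 4 := by
  have h2 := fq_iff l b hn (prog_JJ_lt l) ((fq l b (JJ l))⁻¹ x.hd)
  rw [prog_apply_inv] at h2
  have h3 : |((mv (fq l b (JJ l)))⁻¹ x).hd - n| ≤ JJ l + 1 / 4 := by
    rw [prog_hd_mv_inv]
    exact h2.1 h
  obtain ⟨h4, h5⟩ := hh_near t l b hn h3
  constructor
  · rw [prog_E_apply, prog_hd_mv]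
    exact (fq_iff l b hn (prog_JJ_lt l) _).2 h4
  · rw [prog_E_inv_apply, prog_hd_mv]
    exact (fq_iff l b hn (prog_JJ_lt l) _).2 h5

theorem prog_same {r : ℚ} {n n' : ℤ} (h1 : |r - n| ≤ 3 / 8) (h2 : |r - n'| ≤ 1 / 4) : n = n' := by
  obtain ⟨a1, a2⟩ := abs_le.1 h1
  obtain ⟨b1, b2⟩ := abs_le.1 h2
  have c1 : ((n - n' : ℤ) : ℚ) < 1 := by push_cast; linarith
  have c2 : (-1 : ℚ) < ((n - n' : ℤ) : ℚ) := by push_cast; linarith
  have d1 : n - n' < 1 := by exact_mod_cast c1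
  have d2 : -1 < n - n' := by exact_mod_cast c2
  omega

theorem E_core (t : X ≃o X) (l : ℕ) (b : Bool) {n : ℤ} {x : X} (h : x.key ∈ core n) :
    (E t l b x).key ∈ core n ∧ ((E t l b)⁻¹ x).key ∈ core n := by
  by_cases hc : ∃ n', isC l b n' ∧ |x.hd - n'| ≤ 1 / 4
  · obtain ⟨n', hn', h1⟩ := hc
    have h2 : n = n' := prog_same (X.hd_near_of_core h) h1
    subst h2
    obtain ⟨h3, h4⟩ := E_near t l b hn' h1
    exact ⟨X.core_of_near (by linarith), X.core_of_near (by linarith)⟩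
  · push Not at hc
    obtain ⟨h3, h4⟩ := E_fix t l b hc
    rw [h3, h4]
    exact ⟨h, h⟩

theorem dq_core {n : ℤ} {x : X} (h : x.key ∈ core n) :
    (mv dq x).key ∈ core n ∧ ((mv dq)⁻¹ x).key ∈ core n := by
  have h0 := X.hd_near_of_core h
  have z1 : dq ^ (1 : ℤ) = dq := zpow_one _
  have z2 : dq ^ (-1 : ℤ) = dq⁻¹ := zpow_neg_one _
  rcases h0.lt_or_eq with h1 | h1
  · have h2 := dq_tile h1 (Or.inl rfl)
    have h3 := dq_tile h1 (Or.inr rfl)
    rw [z1] at h2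
    rw [z2] at h3
    exact ⟨X.core_of_near (by rw [prog_hd_mv]; exact h2),
      X.core_of_near (by rw [prog_hd_mv_inv]; exact h3)⟩
  · have h2 := dq_fix h1.ge (by rw [h1]; norm_num) (Or.inl rfl)
    have h3 := dq_fix h1.ge (by rw [h1]; norm_num) (Or.inr rfl)
    rw [z1] at h2
    rw [z2] at h3
    rw [mv_apply, mv_inv_apply, h2, h3, X.setHd_hd]
    exact ⟨h, h⟩

/-- a program does nothing in tiles which are not of its class -/
theorem E_not (t : X ≃o X) (l : ℕ) (b : Bool) {n : ℤ} (hn : ¬ isC l b n) {x : X}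
    (h : x.key ∈ core n) : E t l b x = x := by
  refine (E_fix t l b ?_).1
  intro n' hn'
  by_contra hc
  push Not at hc
  have := prog_same (X.hd_near_of_core h) hc
  subst this
  exact hn hn'

end Pool.Agent.LO.K
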