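import Pool.Agent.LOK.Prog

set_option autoImplicit false
set_option linter.unusedSectionVars false

namespace Pool.Agent.LO.K

variable [KK]

open Filter

/-! Package LO-E2: convergence of the programs (uniform in `t`) -/

theorem prog2_hd_pow (m : ℕ) (x : X) : ((mv dq ^ m) x).hd = (dq ^ m) x.hd := by
  rw [← mv_pow, mv_apply, X.hd_setHd]

theorem prog2_hd_pow_inv (m : ℕ) (x : X) :
    ((mv dq ^ m)⁻¹ x).hd = ((dq ^ m)⁻¹ : ℚ ≃o ℚ) x.hd := by
  rw [← mv_pow, mv_inv_apply, X.hd_setHd]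

/-- on `N` the programs move like `dq` -/
theorem prog2_near (t : X ≃o X) (l : ℕ) (b : Bool) {y : X} {n : ℤ} (h : |y.hd - n| ≤ 1 / 4)
    (m : ℕ) : ((E t l b * mv dq) ^ m) y = (mv dq ^ m) y := by
  induction m with
  | zero => rfl
  | succ m ih =>
    have h1 : ((E t l b * mv dq) ^ (m + 1)) y = E t l b (mv dq (((E t l b * mv dq) ^ m) y)) := by
      rw [pow_succ']; rfl
    have h2 : mv dq ((mv dq ^ m) y) = (mv dq ^ (m + 1)) y := by
      rw [pow_succ']; rfl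
    rw [h1, ih, h2]
    refine (E_fix t l b ?_).1
    intro n' _
    rw [prog2_hd_pow]
    exact dq_disj h (Nat.le_add_left 1 m) n'

theorem prog2_out (t : X ≃o X) (l : ℕ) (b : Bool) {x : X} {m : ℕ}
    (h : ∀ n : ℤ, 1 / 4 < |((dq ^ m)⁻¹ : ℚ ≃o ℚ) x.hd - n|) (n : ℤ) :
    1 / 4 < |(((E t l b * mv dq) ^ m)⁻¹ x).hd - n| := by
  by_contra hc
  have hc' := not_lt.1 hc
  have h1 := prog2_near t l b hc' m
  have h2 : ((E t l b * mv dq) ^ m) (((E t l b * mv dq) ^ m)⁻¹ x) = x :=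
    OrderIso.apply_symm_apply _ _
  rw [h2] at h1
  have h3 : ((E t l b * mv dq) ^ m)⁻¹ x = (mv dq ^ m)⁻¹ x := by
    conv_rhs => rw [h1]
    exact (OrderIso.symm_apply_apply (mv dq ^ m) _).symm
  rw [h3, prog2_hd_pow_inv] at hc
  exact hc (h n)

theorem prog2_step (t : X ≃o X) (l : ℕ) (b : Bool) {x : X} {m : ℕ}
    (h : ∀ n : ℤ, 1 / 4 < |((dq ^ m)⁻¹ : ℚ ≃o ℚ) x.hd - n|) :
    PM t l b (m + 1) x = PM t l b m x ∧ (PM t l b (m + 1))⁻¹ x = (PM t l b m)⁻¹ x := by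
  constructor
  · have h1 : PM t l b (m + 1) =
        (E t l b * mv dq) ^ m * E t l b * (mv dq ^ m)⁻¹ := by
      unfold PM
      rw [pow_succ (E t l b * mv dq), pow_succ (mv dq)]
      group
    have h2 : E t l b ((mv dq ^ m)⁻¹ x) = (mv dq ^ m)⁻¹ x := by
      refine (E_fix t l b ?_).1
      intro n _
      rw [prog2_hd_pow_inv]
      exact h n
    rw [h1]
    show ((E t l b * mv dq) ^ m) (E t l b ((mv dq ^ m)⁻¹ x)) = _
    rw [h2]
    rfl
  · have h1 : (PM t l b (m + 1))⁻¹ =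
        mv dq ^ m * (E t l b)⁻¹ * ((E t l b * mv dq) ^ m)⁻¹ := by
      unfold PM
      rw [pow_succ (E t l b * mv dq), pow_succ (mv dq)]
      group
    have h2 : (E t l b)⁻¹ (((E t l b * mv dq) ^ m)⁻¹ x) = ((E t l b * mv dq) ^ m)⁻¹ x := by
      refine (E_fix t l b ?_).2
      intro n _
      exact prog2_out t l b h n
    have h3 : (PM t l b m)⁻¹ = mv dq ^ m * ((E t l b * mv dq) ^ m)⁻¹ := by
      unfold PM
      rw [mul_inv_rev, inv_inv]
    rw [h1, h3]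
    show (mv dq ^ m) ((E t l b)⁻¹ (((E t l b * mv dq) ^ m)⁻¹ x)) = _
    rw [h2]
    rfl

theorem prog2_const (l : ℕ) (b : Bool) (r : ℚ) :
    ∃ m0 : ℕ, ∀ m, m0 ≤ m → ∀ (t : X ≃o X) (x : X), x.hd = r →
      PM t l b m x = PM t l b m0 x ∧ (PM t l b m)⁻¹ x = (PM t l b m0)⁻¹ x := by
  obtain ⟨m0, hm0⟩ := dq_escape r
  refine ⟨m0, fun m hm t x hx => ?_⟩
  induction m, hm using Nat.le_induction with
  | base => exact ⟨rfl, rfl⟩
  | succ m hm ih =>
    have h1 := prog2_step t l b (x := x) (m := m) (by rw [hx]; exact hm0 m hm)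
    exact ⟨h1.1.trans ih.1, h1.2.trans ih.2⟩

/-- the finite programs stabilise at each point, uniformly in `t` -/
theorem PM_spec (l : ℕ) (b : Bool) (r : ℚ) :
    ∃ m0 : ℕ, ∀ m, m0 ≤ m → ∀ (t : X ≃o X) (x : X), x.hd = r →
      P t l b x = PM t l b m x ∧ (P t l b)⁻¹ x = (PM t l b m)⁻¹ x := by
  obtain ⟨m0, hm0⟩ := prog2_const l b r
  refine ⟨m0, fun m hm t x hx => ?_⟩
  have hspec := limAut_spec (PM t l b)
    (fun x => by
      obtain ⟨m1, hm1⟩ := prog2_const l b x.hd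
      refine ⟨PM t l b m1 x, ?_⟩
      filter_upwards [eventually_ge_atTop m1] with k hk
      exact (hm1 k hk t x rfl).1)
    (fun x => by
      obtain ⟨m1, hm1⟩ := prog2_const l b x.hd
      refine ⟨(PM t l b m1)⁻¹ x, ?_⟩
      filter_upwards [eventually_ge_atTop m1] with k hk
      exact (hm1 k hk t x rfl).2)
  obtain ⟨k, hk⟩ := ((hspec.1 x).and ((hspec.2 x).and (eventually_ge_atTop m0))).exists
  obtain ⟨hk1, hk2, hk3⟩ := hk
  have hA := hm0 k hk3 t x hx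
  have hB := hm0 m hm t x hx
  refine ⟨?_, ?_⟩
  · show limAut (PM t l b) x = _
    rw [← hk1, hA.1, hB.1]
  · show (limAut (PM t l b))⁻¹ x = _
    rw [← hk2, hA.2, hB.2]

theorem P_rec (t : X ≃o X) (l : ℕ) (b : Bool) :
    P t l b = E t l b * mv dq * P t l b * (mv dq)⁻¹ := by
  apply OrderIso.ext
  funext x
  obtain ⟨m1, hm1⟩ := PM_spec l b x.hd
  obtain ⟨m2, hm2⟩ := PM_spec l b ((mv dq)⁻¹ x).hd
  have h1 := (hm1 (max m1 m2 + 1) (by omega) t x rfl).1
  have h2 := (hm2 (max m1 m2) (by omega) t ((mv dq)⁻¹ x) rfl).1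
  have h3 : PM t l b (max m1 m2 + 1) =
      E t l b * mv dq * PM t l b (max m1 m2) * (mv dq)⁻¹ := by
    unfold PM
    rw [pow_succ' (E t l b * mv dq), pow_succ' (mv dq)]
    group
  rw [h1, h3]
  show E t l b (mv dq (PM t l b (max m1 m2) ((mv dq)⁻¹ x))) =
    E t l b (mv dq (P t l b ((mv dq)⁻¹ x)))
  rw [h2]

theorem prog2_pow_core {g : X ≃o X} {n : ℤ}
    (hg : ∀ x : X, x.key ∈ core n → (g x).key ∈ core n) (m : ℕ) :
    ∀ x : X, x.key ∈ core n → ((g ^ m) x).key ∈ core n := by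
  induction m with
  | zero => intro x hx; exact hx
  | succ m ih =>
    intro x hx
    have h1 : (g ^ (m + 1)) x = g ((g ^ m) x) := by
      rw [pow_succ']; rfl
    rw [h1]
    exact hg _ (ih x hx)

theorem prog2_PM_core (t : X ≃o X) (l : ℕ) (b : Bool) (m : ℕ) {n : ℤ} {x : X}
    (h : x.key ∈ core n) :
    (PM t l b m x).key ∈ core n ∧ ((PM t l b m)⁻¹ x).key ∈ core n := by
  constructor
  · show (((E t l b * mv dq) ^ m) ((mv dq ^ m)⁻¹ x)).key ∈ core n
    rw [← inv_pow]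
    refine prog2_pow_core (fun y hy => ?_) m _ (prog2_pow_core (fun y hy => (dq_core hy).2) m x h)
    exact (E_core t l b (dq_core hy).1).1
  · have h3 : (PM t l b m)⁻¹ = mv dq ^ m * ((E t l b * mv dq)⁻¹) ^ m := by
      unfold PM
      rw [mul_inv_rev, inv_inv, inv_pow]
    rw [h3]
    show ((mv dq ^ m) ((((E t l b * mv dq)⁻¹) ^ m) x)).key ∈ core n
    refine prog2_pow_core (fun y hy => (dq_core hy).1) m _ (prog2_pow_core (fun y hy => ?_) m x h)
    rw [mul_inv_rev]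
    exact (dq_core (E_core t l b hy).2).2

theorem P_core (t : X ≃o X) (l : ℕ) (b : Bool) {n : ℤ} {x : X} (h : x.key ∈ core n) :
    (P t l b x).key ∈ core n ∧ ((P t l b)⁻¹ x).key ∈ core n := by
  obtain ⟨m1, hm1⟩ := PM_spec l b x.hd
  have h1 := hm1 m1 le_rfl t x rfl
  have h2 := prog2_PM_core t l b m1 h
  rw [h1.1, h1.2]
  exact h2

end Pool.Agent.LO.K
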