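import Pool.Agent.LOK.Prog2
import Pool.Agent.LO.Transport
import Pool.Agent.LO.Push

set_option autoImplicit false
set_option linter.unusedSectionVars false

namespace Pool.Agent.LO.K

variable [KK]

open Filter

/-! Package LO-E3: the operator `Psi` -/

theorem Q_call (t : X ≃o X) (l : ℕ) {n : ℤ} (hn : (M l : ℤ) ∣ n) :
    Q t (call l n) n = P t l (decide ((2 * (M l : ℤ)) ∣ n)) := by
  have h : ∃ l' : ℕ, (M l' : ℤ) ∣ n ∧ call l n = call l' n := ⟨l, hn, rfl⟩
  unfold Q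
  rw [dif_pos h, ← call_inj h.choose_spec.2]

theorem Q_not (t : X ≃o X) {r : ℚ} {n : ℤ} (h : ¬ ∃ l : ℕ, (M l : ℤ) ∣ n ∧ r = call l n) :
    Q t r n = 1 := by
  unfold Q
  rw [dif_neg h]

theorem Q_pres (t : X ≃o X) : Pres (Q t) := by
  intro r n y hy
  by_cases h : ∃ l : ℕ, (M l : ℤ) ∣ n ∧ r = call l n
  · unfold Q
    rw [dif_pos h]
    exact P_core t _ _ hy
  · rw [Q_not t h]
    exact ⟨hy, hy⟩

theorem Psi_T (t : X ≃o X) (r : ℚ) : Psi t (X.T r) = X.T r := fib_T (Q_pres t) r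

theorem Psi_inv_T (t : X ≃o X) (r : ℚ) : (Psi t)⁻¹ (X.T r) = X.T r := fib_inv_T (Q_pres t) r

theorem Psi_F (t : X ≃o X) (r : ℚ) (n : ℤ) (y : X) (h : y.key ∈ core n) :
    Psi t (X.F r n y h) = X.F r n (Q t r n y) (Q_pres t r n y h).1 := fib_F (Q_pres t) r n y h

theorem Psi_inv_F (t : X ≃o X) (r : ℚ) (n : ℤ) (y : X) (h : y.key ∈ core n) :
    (Psi t)⁻¹ (X.F r n y h) = X.F r n ((Q t r n)⁻¹ y) (Q_pres t r n y h).2 :=
  fib_inv_F (Q_pres t) r n y h

/-- `t` preserves heads -/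
def HP (t : X ≃o X) : Prop := ∀ x, (t x).key = x.key

theorem HP_inv {t : X ≃o X} (h : HP t) (x : X) : (t⁻¹ x).key = x.key := by
  have h1 := h (t⁻¹ x)
  have h2 : t (t⁻¹ x) = x := RelIso.apply_inv_self _ _
  rw [h2] at h1
  exact h1.symm

theorem HP_one : HP 1 := fun _ => rfl

theorem HP_Psi (t : X ≃o X) : HP (Psi t) := by
  intro x
  induction x using X.ind with
  | hT r => rw [Psi_T]
  | hF r n y h _ => rw [Psi_F, X.key_F, X.key_F]

theorem HP_tt (m : ℕ) : HP (tt m) := by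
  cases m with
  | zero => exact HP_one
  | succ m => exact HP_Psi (tt m)

theorem key_hd {x y : X} (h : x.key = y.key) : x.hd = y.hd := by
  rw [← X.fst_key, ← X.fst_key, h]

/-! words -/

theorem ev_nil (t : X ≃o X) : ev t [] = 1 := rfl

theorem ev_cons (t : X ≃o X) (p : Fin 5 × Bool) (v : List (Fin 5 × Bool)) :
    ev t (p :: v) = lett t p * ev t v := by
  unfold ev
  rw [List.map_cons, List.prod_cons]

theorem ev_append (t : X ≃o X) (v v' : List (Fin 5 × Bool)) :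
    ev t (v ++ v') = ev t v * ev t v' := by
  unfold ev
  rw [List.map_append, List.prod_append]

theorem psiT_mv_disp {φ : ℚ ≃o ℚ} (h : ∀ r, |φ r - r| ≤ 1) (x : X) :
    |(mv φ x).hd - x.hd| ≤ 1 := by
  rw [mv_apply, X.hd_setHd]
  exact h _

theorem psiT_gens_disp {t : X ≃o X} (h : HP t) (i : Fin 5) (x : X) :
    |(gens t i x).hd - x.hd| ≤ 1 ∧ |((gens t i)⁻¹ x).hd - x.hd| ≤ 1 := by
  have h0 : sq 0 = uq := rfl
  have h1 : sq 1 = oq := rfl
  fin_cases i
  · change |(mv oq x).hd - x.hd| ≤ 1 ∧ |((mv oq)⁻¹ x).hd - x.hd| ≤ 1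
    rw [← mv_inv]
    refine ⟨psiT_mv_disp (fun r => ?_) x, psiT_mv_disp (fun r => ?_) x⟩
    · have := sq_disp 1 (s := 1) (Or.inl rfl) r
      rwa [zpow_one, h1] at this
    · have := sq_disp 1 (s := -1) (Or.inr rfl) r
      rwa [zpow_neg_one, h1] at this
  · change |(mv uq x).hd - x.hd| ≤ 1 ∧ |((mv uq)⁻¹ x).hd - x.hd| ≤ 1
    rw [← mv_inv]
    refine ⟨psiT_mv_disp (fun r => ?_) x, psiT_mv_disp (fun r => ?_) x⟩
    · have := sq_disp 0 (s := 1) (Or.inl rfl) r
      rwa [zpow_one, h0] at this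
    · have := sq_disp 0 (s := -1) (Or.inr rfl) r
      rwa [zpow_neg_one, h0] at this
  · exact ⟨gam_disp x, gam_inv_disp x⟩
  · change |(mv dq x).hd - x.hd| ≤ 1 ∧ |((mv dq)⁻¹ x).hd - x.hd| ≤ 1
    rw [← mv_inv]
    refine ⟨psiT_mv_disp (fun r => ?_) x, psiT_mv_disp (fun r => ?_) x⟩
    · have := dq_disp (s := 1) (Or.inl rfl) r
      rwa [zpow_one] at this
    · have := dq_disp (s := -1) (Or.inr rfl) r
      rwa [zpow_neg_one] at this
  · change |(t x).hd - x.hd| ≤ 1 ∧ |(t⁻¹ x).hd - x.hd| ≤ 1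
    rw [key_hd (h x), key_hd (HP_inv h x)]
    simp

/-- every letter moves heads by at most one -/
theorem lett_disp {t : X ≃o X} (h : HP t) (p : Fin 5 × Bool) (x : X) :
    |(lett t p x).hd - x.hd| ≤ 1 := by
  unfold lett
  split_ifs
  · exact (psiT_gens_disp h p.1 x).1
  · exact (psiT_gens_disp h p.1 x).2

theorem lett_inv_disp {t : X ≃o X} (h : HP t) (p : Fin 5 × Bool) (x : X) :
    |((lett t p)⁻¹ x).hd - x.hd| ≤ 1 := by
  unfold lett
  split_ifs
  · exact (psiT_gens_disp h p.1 x).2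
  · rw [inv_inv]
    exact (psiT_gens_disp h p.1 x).1

theorem ev_disp {t : X ≃o X} (h : HP t) (v : List (Fin 5 × Bool)) (x : X) :
    |(ev t v x).hd - x.hd| ≤ v.length := by
  induction v with
  | nil =>
    rw [ev_nil]
    change |x.hd - x.hd| ≤ _
    simp
  | cons p v ih =>
    rw [ev_cons]
    change |(lett t p (ev t v x)).hd - x.hd| ≤ _
    have h1 := lett_disp h p (ev t v x)
    have h2 : (lett t p (ev t v x)).hd - x.hd =
      ((lett t p (ev t v x)).hd - (ev t v x).hd) + ((ev t v x).hd - x.hd) := by ring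
    rw [h2, List.length_cons]
    push_cast
    refine (abs_add_le _ _).trans ?_
    linarith

theorem ev_inv_disp {t : X ≃o X} (h : HP t) (v : List (Fin 5 × Bool)) (x : X) :
    |((ev t v)⁻¹ x).hd - x.hd| ≤ v.length := by
  have h1 := ev_disp h v ((ev t v)⁻¹ x)
  have h2 : ev t v ((ev t v)⁻¹ x) = x := RelIso.apply_inv_self _ _
  rw [h2, abs_sub_comm] at h1
  exact h1

theorem wd_length (l : ℕ) : (wd l).length ≤ l := by
  unfold wd
  split
  · split_ifs with h
    · exact h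
    · simp
  · simp

theorem wd_eq {l : ℕ} {v : List (Fin 5 × Bool)}
    (h : padicValNat 2 (l / 2 + 1) = Encodable.encode v) (hl : v.length ≤ l) : wd l = v := by
  unfold wd
  rw [h, Encodable.encodek]
  simp only
  rw [if_pos hl]

/-- every word is used at levels of both parities with bounded gaps -/
theorem wd_gap (v : List (Fin 5 × Bool)) (N : ℕ) (hN : v.length ≤ N) (e : ℕ) (he : e < 2) :
    ∃ l, N ≤ l ∧ l < N + 8 * 2 ^ (Encodable.encode v) ∧ l % 2 = e ∧ wd l = v := by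
  set j := Encodable.encode v with hj
  set q := N / 2 / 2 ^ (j + 1) with hq
  have hpow : 0 < 2 ^ j := by positivity
  have h1 : 2 ^ (j + 1) * q ≤ N / 2 := Nat.mul_div_le _ _
  have h2 : N / 2 < 2 ^ (j + 1) * q + 2 ^ (j + 1) := by
    have := Nat.lt_mul_div_succ (N / 2) (b := 2 ^ (j + 1)) (by positivity)
    rw [← hq] at this
    linarith [this, Nat.mul_add (2 ^ (j + 1)) q 1]
  have hp : (2 : ℕ) ^ (j + 1) = 2 * 2 ^ j := by ring
  have hval : padicValNat 2 (2 ^ j * (2 * (q + 1) + 1)) = j := by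
    rw [padicValNat.mul (by positivity) (by omega), padicValNat.prime_pow,
      padicValNat.eq_zero_of_not_dvd (by omega)]
    rfl
  have h3 : 2 ^ j * (2 * (q + 1) + 1) = 2 ^ (j + 1) * q + 3 * 2 ^ j := by rw [hp]; ring
  obtain ⟨m, hm⟩ : ∃ m, m + 1 = 2 ^ j * (2 * (q + 1) + 1) := by
    refine ⟨2 ^ j * (2 * (q + 1) + 1) - 1, ?_⟩
    have : 0 < 2 ^ j * (2 * (q + 1) + 1) := by positivity
    omega
  refine ⟨2 * m + e, ?_, ?_, by omega, ?_⟩
  · omega
  · omega
  · apply wd_eq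
    · have h4 : (2 * m + e) / 2 = m := by omega
      rw [h4, hm, hval]
    · omega

/-- `t` is trapped: the powers of the level-`l` word move heads by at most `8 * w l` -/
def Trp (t : X ≃o X) : Prop :=
  ∀ (l : ℕ) (x : X) (j : ℤ), |((ev t (wd l) ^ j) x).hd - x.hd| ≤ 8 * w l

end Pool.Agent.LO.K
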