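import Pool.Agent.LOK.PsiT
import Pool.Agent.LO.Push

set_option autoImplicit false
set_option linter.unusedSectionVars false

namespace Pool.Agent.LO.K

variable [KK]

/-! Package LO-I2: the key commutator identity -/

theorem relC_other (G : X ≃o X) (hG : ∀ x : X, (∀ n : ℤ, 3 / 8 ≤ |x.hd - n|) → G x = x) {x : X}
    (hx : ∀ n : ℤ, x.key ≠ kF n n) : (gam * G * gam⁻¹) x = x := by
  have h1 : gam (gam⁻¹ x) = x := RelIso.apply_inv_self _ _
  have h2 : ∀ n : ℤ, 3 / 8 ≤ |(gam⁻¹ x).hd - n| := by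
    intro n
    by_contra h3
    push Not at h3
    have h4 := X.core_of_near h3
    have h5 := gam_push h4
    rw [h1] at h5
    apply hx n
    rw [h5]
    rfl
  change gam (G (gam⁻¹ x)) = x
  rw [hG _ h2, h1]

theorem relC_pop (G : X ≃o X) {n : ℤ} {y : X} (h : y.key ∈ core n) (h' : (G y).key ∈ core n) :
    (gam * G * gam⁻¹) (X.F n n y h) = X.F n n (G y) h' := by
  change gam (G (gam⁻¹ (X.F n n y h))) = _
  rw [gam_inv_pop h, gam_push h']

theorem relC_dq {x : X} (h : ∀ n : ℤ, 3 / 8 ≤ |x.hd - n|) : mv dq x = x := by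
  have h1 : |x.hd - (round x.hd : ℤ)| ≤ 1 / 2 := abs_sub_round x.hd
  have h2 := dq_fix (h (round x.hd)) h1 (s := 1) (Or.inl rfl)
  rw [zpow_one] at h2
  rw [mv_apply, h2, X.setHd_hd]

theorem relC_F {t : X ≃o X} (ht : Psi t = t) (φ : ℚ ≃o ℚ) (r : ℚ) (n : ℤ) (y : X)
    (h : y.key ∈ core n) :
    ((mv φ)⁻¹ * t * mv φ) (X.F r n y h) =
      X.F r n (Q t (φ r) n y) (Q_pres t (φ r) n y h).1 := by
  change (mv φ)⁻¹ (t (mv φ (X.F r n y h))) = _
  have h1 : mv φ (X.F r n y h) = X.F (φ r) n y h := by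
    rw [mv_apply]
    rfl
  have h2 : t (X.F (φ r) n y h) = Psi t (X.F (φ r) n y h) := by rw [ht]
  rw [h1, h2, Psi_F, mv_inv_apply, X.hd_F, X.setHd_F]
  congr 1
  exact RelIso.inv_apply_self _ _

theorem relC_T {t : X ≃o X} (ht : Psi t = t) (φ : ℚ ≃o ℚ) (r : ℚ) :
    ((mv φ)⁻¹ * t * mv φ) (X.T r) = X.T r := by
  change (mv φ)⁻¹ (t (mv φ (X.T r))) = _
  have h1 : mv φ (X.T r) = X.T (φ r) := by
    rw [mv_apply]
    rfl
  have h2 : t (X.T (φ r)) = Psi t (X.T (φ r)) := by rw [ht]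
  rw [h1, h2, Psi_T, mv_inv_apply, X.hd_T, X.setHd_T]
  congr 1
  exact RelIso.inv_apply_self _ _

theorem relC_congr {r : ℚ} {n : ℤ} {y y' : X} {h h'} (e : y = y') :
    X.F r n y h = X.F r n y' h' := by
  subst e
  rfl

theorem comm_eq {t : X ≃o X} (ht : Psi t = t) (l : ℕ) (b : Bool) {g : X ≃o X}
    (hg : g = mv (gq l b (dd l))) :
    (g⁻¹ * t * g) * (gam * mv dq * gam⁻¹) * (g⁻¹ * t * g)⁻¹ * (gam * mv dq * gam⁻¹)⁻¹ =
      gam * E t l b * gam⁻¹ := by
  subst hg
  rw [mul_inv_eq_iff_eq_mul, mul_inv_eq_iff_eq_mul]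
  set φ := gq l b (dd l) with hφ
  have hE : ∀ x : X, (∀ n : ℤ, 3 / 8 ≤ |x.hd - n|) → E t l b x = x := by
    intro x hx
    refine (E_fix t l b ?_).1
    intro n _
    have := hx n
    linarith
  refine RelIso.ext fun x => ?_
  change ((mv φ)⁻¹ * t * mv φ) ((gam * mv dq * gam⁻¹) x) =
    (gam * E t l b * gam⁻¹) ((gam * mv dq * gam⁻¹) (((mv φ)⁻¹ * t * mv φ) x))
  induction x using X.ind with
  | hT r =>
    have h1 : ∀ n : ℤ, (X.T r).key ≠ kF n n := fun n => kT_ne_kF _ _ _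
    rw [relC_other (mv dq) (fun x hx => relC_dq hx) h1, relC_T ht,
      relC_other (mv dq) (fun x hx => relC_dq hx) h1, relC_other _ hE h1]
  | hF r n y h _ =>
    by_cases hr : r = n
    · subst hr
      have hd := (dq_core h).1
      rw [relC_pop (mv dq) h hd, relC_F ht, relC_F ht]
      have hQ := (Q_pres t (φ n) n y h).1
      rw [relC_pop (mv dq) hQ (dq_core hQ).1,
        relC_pop (E t l b) (dq_core hQ).1 (E_core t l b (dq_core hQ).1).1]
      apply relC_congr
      by_cases hn : isC l b n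
      · have h2 : Q t (φ n) n = P t l b := by
          rw [hφ, gq_isC l b hn, Q_call t l (isC_dvd hn), (isC_iff_decide (isC_dvd hn)).mp hn]
        rw [h2]
        have h3 := P_rec t l b
        have h4 : P t l b * mv dq = E t l b * mv dq * P t l b := by
          rw [← eq_mul_inv_iff_mul_eq]
          exact h3
        exact congrArg (fun f : X ≃o X => f y) h4
      · have h2 : Q t (φ n) n = 1 := by
          apply Q_not
          rintro ⟨l', h3, h4⟩
          exact gq_not l b hn l' h3 h4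
        rw [h2]
        change mv dq y = E t l b (mv dq y)
        rw [E_not t l b hn hd]
    · have h1 : ∀ (z : X) (hz : z.key ∈ core n) (m : ℤ), (X.F r n z hz).key ≠ kF m m := by
        intro z hz m h2
        obtain ⟨h3, h4⟩ := kF_inj h2
        apply hr
        rw [h3, h4]
      rw [relC_other (mv dq) (fun x hx => relC_dq hx) (h1 _ _), relC_F ht,
        relC_other (mv dq) (fun x hx => relC_dq hx) (h1 _ _), relC_other _ hE (h1 _ _)]

end Pool.Agent.LO.K
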