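import Pool.Agent.LOK.PsiT
import Pool.Agent.LO.Push

set_option autoImplicit false
set_option linter.unusedSectionVars false

namespace Pool.Agent.LO.K

variable [KK]

/-- the local symmetry at scale `w i` between the neighbourhood of `0` and that of `n0`
(a translation if `eps n0 = 1`, a reflection if `eps n0 = -1`) -/
inductive Rho (i : ℕ) (n0 : ℤ) : X → X → Prop
  | T (r : ℚ) : Rho i n0 (X.T r) (X.T (n0 + eps n0 * r))
  | F (r : ℚ) (n : ℤ) (y y' : X) (h : y.key ∈ core n) (h' : y'.key ∈ core (n0 + eps n0 * n))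
      (hn : |n| < w i) (hy : Rho i n0 y y') :
      Rho i n0 (X.F r n y h) (X.F (n0 + eps n0 * r) (n0 + eps n0 * n) y' h')

/-- `t` commutes with the local symmetries -/
def Eqv (t : X ≃o X) : Prop :=
  ∀ (i : ℕ) (n0 : ℤ), (2 * (w i : ℤ)) ∣ n0 → ∀ x x', Rho i n0 x x' → |x.hd| < w i - 1 →
    Rho i n0 (t x) (t x') ∧ Rho i n0 (t⁻¹ x) (t⁻¹ x')

/-! Package LO-F1: basics of `Rho` -/

theorem Rho_hd {i : ℕ} {n0 : ℤ} {x x' : X} (h : Rho i n0 x x') :
    x'.hd = n0 + eps n0 * x.hd := by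
  cases h with
  | T r => rfl
  | F r n y y' h h' hn hy => rfl

theorem Rho_setHd {i : ℕ} {n0 : ℤ} {x x' : X} (h : Rho i n0 x x') (r : ℚ) :
    Rho i n0 (x.setHd r) (x'.setHd (n0 + eps n0 * r)) := by
  cases h with
  | T s => exact Rho.T r
  | F s n y y' h h' hn hy => exact Rho.F r n y y' h h' hn hy

/-- the symmetry on keys -/
inductive RhoKey (i : ℕ) (n0 : ℤ) : Key → Key → Prop
  | T (r : ℚ) : RhoKey i n0 (kT r) (kT (n0 + eps n0 * r))
  | F (r : ℚ) (n : ℤ) (hn : |n| < w i) :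
      RhoKey i n0 (kF r n) (kF (n0 + eps n0 * r) (n0 + eps n0 * n))

theorem Rho_key {i : ℕ} {n0 : ℤ} {x x' : X} (h : Rho i n0 x x') :
    RhoKey i n0 x.key x'.key := by
  cases h with
  | T s => exact RhoKey.T s
  | F s n y y' h h' hn hy => exact RhoKey.F s n hn

theorem RhoKey_lt {i : ℕ} {n0 : ℤ} (hn0 : (2 * (w i : ℤ)) ∣ n0) {a a' b b' : Key}
    (ha : RhoKey i n0 a a') (hb : RhoKey i n0 b b') :
    (eps n0 = 1 → (a < b ↔ a' < b')) ∧ (eps n0 = -1 → (a < b ↔ b' < a')) := by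
  constructor
  · intro he
    cases ha with
    | T r =>
      cases hb with
      | T s => rw [kT_lt_kT, kT_lt_kT, he]; simp
      | F s m hm =>
        rw [kT_lt_kF, kT_lt_kF, eps_tau i hn0 hm, he]; simp
    | F r n hn =>
      cases hb with
      | T s => rw [kF_lt_kT, kF_lt_kT, eps_tau i hn0 hn, he]; simp
      | F s m hm =>
        rw [kF_lt_kF, kF_lt_kF, eps_tau i hn0 hn, eps_tau i hn0 hm, he]; simp
  · intro he
    cases ha with
    | T r =>
      cases hb with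
      | T s =>
        rw [kT_lt_kT, kT_lt_kT, he]
        push_cast
        constructor <;> intro h <;> linarith
      | F s m hm =>
        rw [kT_lt_kF, kF_lt_kT, eps_tau i hn0 hm, he]
        push_cast
        constructor
        · rintro (h | ⟨h, h2⟩)
          · left; linarith
          · right; exact ⟨by rw [h], by rw [h2]; norm_num⟩
        · rintro (h | ⟨h, h2⟩)
          · left; linarith
          · right; exact ⟨by linarith, by linarith⟩
    | F r n hn =>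
      cases hb with
      | T s =>
        rw [kF_lt_kT, kT_lt_kF, eps_tau i hn0 hn, he]
        push_cast
        constructor
        · rintro (h | ⟨h, h2⟩)
          · left; linarith
          · right; exact ⟨by rw [h], by rw [h2]; norm_num⟩
        · rintro (h | ⟨h, h2⟩)
          · left; linarith
          · right; exact ⟨by linarith, by linarith⟩
      | F s m hm =>
        rw [kF_lt_kF, kF_lt_kF, eps_tau i hn0 hn, eps_tau i hn0 hm, he]
        push_cast
        constructor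
        · rintro (h | ⟨h, h2 | ⟨h2, h3⟩⟩)
          · left; linarith
          · right; exact ⟨by linarith, by left; linarith⟩
          · right; exact ⟨by linarith, by right; exact ⟨by linarith, by linarith⟩⟩
        · rintro (h | ⟨h, h2 | ⟨h2, h3⟩⟩)
          · left; linarith
          · right; exact ⟨by linarith, by left; linarith⟩
          · right; exact ⟨by linarith, by right; exact ⟨by linarith, by linarith⟩⟩

theorem Rho_F_inv {i : ℕ} {n0 : ℤ} {r : ℚ} {n : ℤ} {y : X} {h : y.key ∈ core n} {x' : X}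
    (hx : Rho i n0 (X.F r n y h) x') :
    |n| < w i ∧ ∃ y' h', Rho i n0 y y' ∧ x' = X.F (n0 + eps n0 * r) (n0 + eps n0 * n) y' h' := by
  generalize hz : X.F r n y h = z at hx
  cases hx with
  | T s => exact absurd hz.symm (X.T_ne_F _ _ _ _ _)
  | F s m u u' hu hu' hn hy =>
    obtain ⟨h1, h2, h3⟩ := X.F_inj hz
    subst h1 h2 h3
    exact ⟨hn, u', hu', hy, rfl⟩

theorem Rho_T_inv {i : ℕ} {n0 : ℤ} {r : ℚ} {x' : X}
    (hx : Rho i n0 (X.T r) x') : x' = X.T (n0 + eps n0 * r) := by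
  generalize hz : X.T r = z at hx
  cases hx with
  | T s => rw [X.T_inj hz]
  | F s m u u' hu hu' hn hy => exact absurd hz (X.T_ne_F _ _ _ _ _)

theorem Rho_fun {i : ℕ} {n0 : ℤ} {x x' x'' : X}
    (h1 : Rho i n0 x x') (h2 : Rho i n0 x x'') : x' = x'' := by
  induction h1 generalizing x'' with
  | T r => exact (Rho_T_inv h2).symm
  | F r n y y' h h' hn hy ih =>
    obtain ⟨_, y'', h'', hy'', rfl⟩ := Rho_F_inv h2
    have := ih hy''
    subst this
    rfl

theorem Rho_lt_aux {i : ℕ} {n0 : ℤ} (hn0 : (2 * (w i : ℤ)) ∣ n0) {x x' y y' : X}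
    (hx : Rho i n0 x x') (hy : Rho i n0 y y') (hlt : x < y) :
    (eps n0 = 1 → x' < y') ∧ (eps n0 = -1 → y' < x') := by
  induction hx generalizing y y' with
  | T r =>
    rcases X.lt_cases hlt with h | ⟨r', n, a, b, ha, hb, h1, _, _⟩
    · have := RhoKey_lt hn0 (Rho_key (Rho.T r)) (Rho_key hy)
      exact ⟨fun he => X.lt_of_key_lt ((this.1 he).1 h), fun he => X.lt_of_key_lt ((this.2 he).1 h)⟩
    · exact absurd h1 (X.T_ne_F _ _ _ _ _)
  | F r n z z' h h' hn hz ih =>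
    rcases X.lt_cases hlt with hk | ⟨r', m, a, b, ha, hb, h1, h2, hab⟩
    · have := RhoKey_lt hn0 (Rho_key (Rho.F r n z z' h h' hn hz)) (Rho_key hy)
      exact ⟨fun he => X.lt_of_key_lt ((this.1 he).1 hk),
        fun he => X.lt_of_key_lt ((this.2 he).1 hk)⟩
    · obtain ⟨h3, h4, h5⟩ := X.F_inj h1
      subst h3 h4 h5 h2
      obtain ⟨_, b', hb', hbb, rfl⟩ := Rho_F_inv hy
      have := ih hbb hab
      exact ⟨fun he => X.F_lt_F_iff.2 (this.1 he), fun he => X.F_lt_F_iff.2 (this.2 he)⟩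

theorem Rho_lt {i : ℕ} {n0 : ℤ} (hn0 : (2 * (w i : ℤ)) ∣ n0) {x x' y y' : X}
    (hx : Rho i n0 x x') (hy : Rho i n0 y y') :
    (eps n0 = 1 → (x < y ↔ x' < y')) ∧ (eps n0 = -1 → (x < y ↔ y' < x')) := by
  constructor
  · intro he
    refine ⟨fun h => (Rho_lt_aux hn0 hx hy h).1 he, fun h => ?_⟩
    rcases lt_trichotomy x y with h1 | h1 | h1
    · exact h1
    · subst h1
      rw [Rho_fun hx hy] at h
      exact absurd h (lt_irrefl _)
    · exact absurd ((Rho_lt_aux hn0 hy hx h1).1 he) (lt_asymm h)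
  · intro he
    refine ⟨fun h => (Rho_lt_aux hn0 hx hy h).2 he, fun h => ?_⟩
    rcases lt_trichotomy x y with h1 | h1 | h1
    · exact h1
    · subst h1
      rw [Rho_fun hx hy] at h
      exact absurd h (lt_irrefl _)
    · exact absurd ((Rho_lt_aux hn0 hy hx h1).2 he) (lt_asymm h)

theorem Rho_max {i : ℕ} {n0 : ℤ} (hn0 : (2 * (w i : ℤ)) ∣ n0) {x x' y y' : X}
    (hx : Rho i n0 x x') (hy : Rho i n0 y y') :
    (eps n0 = 1 → Rho i n0 (max x y) (max x' y') ∧ Rho i n0 (min x y) (min x' y')) ∧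
    (eps n0 = -1 → Rho i n0 (max x y) (min x' y') ∧ Rho i n0 (min x y) (max x' y')) := by
  have h := Rho_lt hn0 hx hy
  constructor
  · intro he
    have h1 := h.1 he
    rcases lt_or_ge x y with h2 | h2
    · have h3 := h1.1 h2
      rw [max_eq_right h2.le, max_eq_right h3.le, min_eq_left h2.le, min_eq_left h3.le]
      exact ⟨hy, hx⟩
    · have h3 : y' ≤ x' := not_lt.1 (fun h4 => absurd (h1.2 h4) (not_lt.2 h2))
      rw [max_eq_left h2, max_eq_left h3, min_eq_right h2, min_eq_right h3]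
      exact ⟨hx, hy⟩
  · intro he
    have h1 := h.2 he
    rcases lt_or_ge x y with h2 | h2
    · have h3 := h1.1 h2
      rw [max_eq_right h2.le, max_eq_left h3.le, min_eq_left h2.le, min_eq_right h3.le]
      exact ⟨hy, hx⟩
    · have h3 : x' ≤ y' := not_lt.1 (fun h4 => absurd (h1.2 h4) (not_lt.2 h2))
      rw [max_eq_left h2, max_eq_right h3, min_eq_right h2, min_eq_left h3]
      exact ⟨hx, hy⟩

/-- heads moved by `psi` -/
theorem Rho_mv_psi {i : ℕ} {n0 : ℤ} (hn0 : (2 * (w i : ℤ)) ∣ n0) {x x' : X}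
    (hx : Rho i n0 x x') {l : ℕ} (hl : l < i) (b : Bool) :
    (eps n0 = 1 → Rho i n0 (mv (psi l b) x) (mv (psi l b) x') ∧
      Rho i n0 ((mv (psi l b))⁻¹ x) ((mv (psi l b))⁻¹ x')) ∧
    (eps n0 = -1 → Rho i n0 (mv (psi l b) x) ((mv (psi l b))⁻¹ x') ∧
      Rho i n0 ((mv (psi l b))⁻¹ x) (mv (psi l b) x')) := by
  have hM : (2 * (M l : ℤ)) ∣ n0 := by
    have h1 : (2 * (M l : ℤ)) ∣ (w i : ℤ) := by exact_mod_cast two_M_dvd_w hl
    exact (h1.trans (Dvd.intro_left 2 rfl)).trans hn0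
  have hhd := Rho_hd hx
  constructor
  · intro he
    have e1 := psi_tau l b (a := 1) (Or.inl rfl) hM x.hd (s := 1) (Or.inl rfl)
    have e2 := psi_tau l b (a := 1) (Or.inl rfl) hM x.hd (s := -1) (Or.inr rfl)
    simp only [Int.cast_one, one_mul, zpow_one, zpow_neg] at e1 e2
    have hs := Rho_setHd hx
    rw [he] at hhd hs
    simp only [Int.cast_one, one_mul] at hhd hs
    rw [mv_apply, mv_apply, mv_inv_apply, mv_inv_apply, hhd, e1, e2]
    exact ⟨hs _, hs _⟩
  · intro he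
    have e1 := psi_tau l b (a := -1) (Or.inr rfl) hM x.hd (s := 1) (Or.inl rfl)
    have e2 := psi_tau l b (a := -1) (Or.inr rfl) hM x.hd (s := -1) (Or.inr rfl)
    have e3 : ((-1 : ℤ) * -1) = 1 := by norm_num
    rw [e3] at e2
    rw [mul_one] at e1
    simp only [zpow_one, zpow_neg] at e1 e2
    have hs := Rho_setHd hx
    rw [he] at hhd hs
    rw [mv_apply, mv_apply, mv_inv_apply, mv_inv_apply, hhd, e1, e2]
    exact ⟨hs _, hs _⟩

theorem Rho_mv_psi_inv_le (l : ℕ) (b : Bool) (x : X) : (mv (psi l b))⁻¹ x ≤ mv (psi l b) x := by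
  have h1 : x ≤ mv (psi l b) x := le_mv (le_psi l b) x
  have h2 : (mv (psi l b))⁻¹ x ≤ mv (psi l b) ((mv (psi l b))⁻¹ x) := le_mv (le_psi l b) _
  have h3 : mv (psi l b) ((mv (psi l b))⁻¹ x) = x := by
    rw [← RelIso.mul_apply, mul_inv_cancel]; rfl
  rw [h3] at h2
  exact h2.trans h1

/-- clamping is compatible with the symmetry -/
theorem Rho_clamp {i : ℕ} {n0 : ℤ} (hn0 : (2 * (w i : ℤ)) ∣ n0) {x x' y y' : X}
    (hx : Rho i n0 x x') (hy : Rho i n0 y y') {l : ℕ} (hl : l < i) (b : Bool) :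
    Rho i n0 (max (min y (mv (psi l b) x)) ((mv (psi l b))⁻¹ x))
      (max (min y' (mv (psi l b) x')) ((mv (psi l b))⁻¹ x')) := by
  have hm := Rho_mv_psi hn0 hx hl b
  rcases eps_cases n0 with he | he
  · have h1 := hm.1 he
    exact ((Rho_max hn0 ((Rho_max hn0 hy h1.1).1 he).2 h1.2).1 he).1
  · have h1 := hm.2 he
    have h2 := ((Rho_max hn0 ((Rho_max hn0 hy h1.1).2 he).2 h1.2).2 he).1
    have h3 : max (min y' (mv (psi l b) x')) ((mv (psi l b))⁻¹ x') =
        min (max y' ((mv (psi l b))⁻¹ x')) (mv (psi l b) x') := by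
      rw [max_min_distrib_right, max_eq_left (Rho_mv_psi_inv_le l b x')]
    rw [h3]
    exact h2

theorem Rho_core {i : ℕ} {n0 : ℤ} (hn0 : (2 * (w i : ℤ)) ∣ n0) {x x' : X}
    (hx : Rho i n0 x x') {n : ℤ} (hn : |n| < w i) :
    x.key ∈ core n ↔ x'.key ∈ core (n0 + eps n0 * n) := by
  have hk := Rho_key hx
  have hl := RhoKey_lt hn0 hk (RhoKey.F ((n : ℚ) - 3 / 8) n hn)
  have hr := RhoKey_lt hn0 (RhoKey.F ((n : ℚ) + 3 / 8) n hn) hk
  unfold core
  rw [Set.mem_Icc, Set.mem_Icc, ← not_lt, ← not_lt, ← not_lt, ← not_lt]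
  rcases eps_cases n0 with he | he
  · rw [hl.1 he, hr.1 he, he]
    have e1 : ((n0 : ℚ) + ((1 : ℤ) : ℚ) * ((n : ℚ) - 3 / 8)) =
      (((n0 + 1 * n : ℤ)) : ℚ) - 3 / 8 := by push_cast; ring
    have e2 : ((n0 : ℚ) + ((1 : ℤ) : ℚ) * ((n : ℚ) + 3 / 8)) =
      (((n0 + 1 * n : ℤ)) : ℚ) + 3 / 8 := by push_cast; ring
    rw [e1, e2]
  · rw [hl.2 he, hr.2 he, he]
    have e1 : ((n0 : ℚ) + ((-1 : ℤ) : ℚ) * ((n : ℚ) - 3 / 8)) =
      (((n0 + -1 * n : ℤ)) : ℚ) + 3 / 8 := by push_cast; ring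
    have e2 : ((n0 : ℚ) + ((-1 : ℤ) : ℚ) * ((n : ℚ) + 3 / 8)) =
      (((n0 + -1 * n : ℤ)) : ℚ) - 3 / 8 := by push_cast; ring
    rw [e1, e2]
    exact and_comm

end Pool.Agent.LO.K
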