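import Pool.Agent.LOK.Rho

set_option autoImplicit false
set_option linter.unusedSectionVars false

namespace Pool.Agent.LO.K

variable [KK]

/-! Package LO-F2: the generators commute with the local symmetries -/

theorem RhoGen_even {i : ℕ} {n0 : ℤ} (hn0 : (2 * (w i : ℤ)) ∣ n0) : n0 % 2 = 0 := by
  obtain ⟨k, rfl⟩ := hn0
  rw [mul_assoc]
  exact Int.mul_emod_right 2 _

theorem RhoGen_small {i : ℕ} {r : ℚ} {n : ℤ} (h1 : |r - n| ≤ 1) (h2 : |r| < w i - 1) :
    |n| < w i := by
  have h3 : |(n : ℚ)| < w i := by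
    have h4 : |(n : ℚ)| ≤ |r| + |r - n| := by
      have h5 : (n : ℚ) = r - (r - n) := by ring
      calc |(n : ℚ)| = |r - (r - n)| := by rw [← h5]
        _ ≤ |r| + |r - n| := abs_sub _ _
    linarith
  exact_mod_cast h3

theorem Rho_sq {i : ℕ} {n0 : ℤ} (hn0 : (2 * (w i : ℤ)) ∣ n0) {x x' : X} (hx : Rho i n0 x x')
    (hb : |x.hd| < w i - 1) (j : ℕ) {s : ℤ} (hs : s = 1 ∨ s = -1) :
    Rho i n0 (((mv (sq j)) ^ s) x) (((mv (sq j)) ^ s) x') := by
  rw [← mv_zpow, mv_apply, mv_apply, Rho_hd hx]
  obtain ⟨m, hm1, hm2⟩ := exists_center (m := 2) (by norm_num) (j : ℤ) x.hd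
  have hm2' : |x.hd - m| ≤ 1 := by
    have : ((2 : ℤ) : ℚ) / 2 = 1 := by norm_num
    rw [this] at hm2
    exact hm2
  have h1 : |m| < w i := RhoGen_small hm2' hb
  rw [sq_tau j (eps_cases n0) (RhoGen_even hn0) (by omega) hm2' (eps_tau i hn0 h1) hs]
  exact Rho_setHd hx _

theorem Rho_dq {i : ℕ} {n0 : ℤ} (hn0 : (2 * (w i : ℤ)) ∣ n0) {x x' : X} (hx : Rho i n0 x x')
    (hb : |x.hd| < w i - 1) {s : ℤ} (hs : s = 1 ∨ s = -1) :
    Rho i n0 (((mv dq) ^ s) x) (((mv dq) ^ s) x') := by
  rw [← mv_zpow, mv_apply, mv_apply, Rho_hd hx]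
  obtain ⟨m, hm1, hm2⟩ := exists_center (m := 1) (by norm_num) 0 x.hd
  have hm2' : |x.hd - m| ≤ 1 / 2 := by
    have : ((1 : ℤ) : ℚ) / 2 = 1 / 2 := by norm_num
    rw [this] at hm2
    exact hm2
  have h1 : |m| < w i := RhoGen_small (by linarith) hb
  rw [dq_tau (eps_cases n0) hm2' (eps_tau i hn0 h1) hs]
  exact Rho_setHd hx _

/-- comparison with a frame key, translation case -/
theorem RhoGen_key_pos {i : ℕ} {n0 : ℤ} (hn0 : (2 * (w i : ℤ)) ∣ n0) {x x' : X}
    (hx : Rho i n0 x x') (he : eps n0 = 1) {r : ℚ} {n : ℤ} (hn : |n| < w i) :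
    (x.key < kF r n ↔ x'.key < kF (n0 + r) (n0 + n)) ∧
    (kF r n < x.key ↔ kF (n0 + r) (n0 + n) < x'.key) := by
  have h1 := eps_tau i hn0 hn
  rw [he, one_mul, one_mul] at h1
  cases hx with
  | T s =>
    simp only [X.key_T, he, Int.cast_one, one_mul]
    rw [kT_lt_kF, kT_lt_kF, kF_lt_kT, kF_lt_kT, h1]
    constructor
    · constructor
      · rintro (h | ⟨h, h'⟩)
        · left; linarith
        · right; exact ⟨by rw [h], h'⟩
      · rintro (h | ⟨h, h'⟩)
        · left; linarith
        · right; exact ⟨by linarith, h'⟩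
    · constructor
      · rintro (h | ⟨h, h'⟩)
        · left; linarith
        · right; exact ⟨by rw [h], h'⟩
      · rintro (h | ⟨h, h'⟩)
        · left; linarith
        · right; exact ⟨by linarith, h'⟩
  | F s m y y' h h' hm hy =>
    have h2 := eps_tau i hn0 hm
    rw [he, one_mul, one_mul] at h2
    simp only [X.key_F, he, Int.cast_one, one_mul]
    rw [kF_lt_kF, kF_lt_kF, kF_lt_kF, kF_lt_kF, h1, h2]
    constructor
    · constructor
      · rintro (h | ⟨h, h'⟩)
        · left; linarith
        · right; refine ⟨by rw [h], ?_⟩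
          rcases h' with h' | ⟨h', h''⟩
          · left; exact h'
          · right; exact ⟨h', by linarith⟩
      · rintro (h | ⟨h, h'⟩)
        · left; linarith
        · right; refine ⟨by linarith, ?_⟩
          rcases h' with h' | ⟨h', h''⟩
          · left; exact h'
          · right; exact ⟨h', by linarith⟩
    · constructor
      · rintro (h | ⟨h, h'⟩)
        · left; linarith
        · right; refine ⟨by rw [h], ?_⟩
          rcases h' with h' | ⟨h', h''⟩
          · left; exact h'
          · right; exact ⟨h', by linarith⟩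
      · rintro (h | ⟨h, h'⟩)
        · left; linarith
        · right; refine ⟨by linarith, ?_⟩
          rcases h' with h' | ⟨h', h''⟩
          · left; exact h'
          · right; exact ⟨h', by linarith⟩

/-- comparison with a frame key, reflection case -/
theorem RhoGen_key_neg {i : ℕ} {n0 : ℤ} (hn0 : (2 * (w i : ℤ)) ∣ n0) {x x' : X}
    (hx : Rho i n0 x x') (he : eps n0 = -1) {r : ℚ} {n : ℤ} (hn : |n| < w i) :
    (x.key < kF r n ↔ kF (n0 - r) (n0 - n) < x'.key) ∧
    (kF r n < x.key ↔ x'.key < kF (n0 - r) (n0 - n)) := by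
  have h1 := eps_tau i hn0 hn
  rw [he, neg_one_mul, neg_one_mul, ← sub_eq_add_neg] at h1
  have e1 := eps_cases n
  cases hx with
  | T s =>
    simp only [X.key_T, he, Int.cast_neg, Int.cast_one, neg_mul, one_mul, ← sub_eq_add_neg]
    rw [kT_lt_kF, kT_lt_kF, kF_lt_kT, kF_lt_kT, h1]
    constructor
    · constructor
      · rintro (h | ⟨h, h'⟩)
        · left; linarith
        · right; exact ⟨by rw [h], by omega⟩
      · rintro (h | ⟨h, h'⟩)
        · left; linarith
        · right; exact ⟨by linarith, by omega⟩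
    · constructor
      · rintro (h | ⟨h, h'⟩)
        · left; linarith
        · right; exact ⟨by rw [h], by omega⟩
      · rintro (h | ⟨h, h'⟩)
        · left; linarith
        · right; exact ⟨by linarith, by omega⟩
  | F s m y y' h h' hm hy =>
    have h2 := eps_tau i hn0 hm
    rw [he, neg_one_mul, neg_one_mul, ← sub_eq_add_neg] at h2
    simp only [X.key_F, he, Int.cast_neg, Int.cast_one, neg_mul, one_mul, ← sub_eq_add_neg]
    rw [kF_lt_kF, kF_lt_kF, kF_lt_kF, kF_lt_kF, h1, h2]
    constructor
    · constructor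
      · rintro (h | ⟨h, h'⟩)
        · left; linarith
        · right; exact ⟨by rw [h], by omega⟩
      · rintro (h | ⟨h, h'⟩)
        · left; linarith
        · right; exact ⟨by linarith, by omega⟩
    · constructor
      · rintro (h | ⟨h, h'⟩)
        · left; linarith
        · right; exact ⟨by rw [h], by omega⟩
      · rintro (h | ⟨h, h'⟩)
        · left; linarith
        · right; exact ⟨by linarith, by omega⟩

theorem RhoGen_F {i : ℕ} {n0 : ℤ} {n : ℤ} {r : ℚ} {y : X} {h : y.key ∈ core n} {x' : X}
    (hx : Rho i n0 (X.F r n y h) x') :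
    ∃ y' h', x' = X.F (n0 + eps n0 * r) (n0 + eps n0 * n) y' h' ∧ Rho i n0 y y' := by
  generalize hz : X.F r n y h = z at hx
  cases hx with
  | T s => exact absurd hz.symm (X.T_ne_F _ _ _ _ _)
  | F s m v v' k k' hm hv =>
    obtain ⟨h1, h2, h3⟩ := X.F_inj hz
    subst h1 h2 h3
    exact ⟨v', k', rfl, hv⟩

theorem Rho_gam {i : ℕ} {n0 : ℤ} (hn0 : (2 * (w i : ℤ)) ∣ n0) {x x' : X} (hx : Rho i n0 x x')
    (hb : |x.hd| < w i - 1) :
    Rho i n0 (gam x) (gam x') ∧ Rho i n0 (gam⁻¹ x) (gam⁻¹ x') := by
  obtain ⟨n, hm1, hm2⟩ := exists_center (m := 1) (by norm_num) 0 x.hd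
  have hr : |x.hd - n| ≤ 1 / 2 := by
    have : ((1 : ℤ) : ℚ) / 2 = 1 / 2 := by norm_num
    rw [this] at hm2
    exact hm2
  have hn : |n| < w i := RhoGen_small (by linarith) hb
  have hhd := Rho_hd hx
  have hcore := Rho_core hn0 hx hn
  constructor
  · by_cases hc : x.key ∈ core n
    · have hc' := hcore.1 hc
      rw [gam_push hc, gam_push hc']
      have := Rho.F (i := i) (n0 := n0) (n : ℚ) n x x' hc hc' hn hx
      convert this using 2
      push_cast
      rfl
    · have hc' : ¬ x'.key ∈ core (n0 + eps n0 * n) := fun h => hc (hcore.2 h)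
      have hlr : x.key < kF (n - 3 / 8) n ∨ kF (n + 3 / 8) n < x.key := by
        by_contra hcon
        push Not at hcon
        exact hc ⟨hcon.1, hcon.2⟩
      rcases eps_cases n0 with he | he
      · rw [he, Int.cast_one, one_mul] at hhd
        have hr' : |x'.hd - ((n0 + n : ℤ) : ℚ)| ≤ 1 / 2 := by
          rw [hhd]; push_cast
          have : (n0 : ℚ) + x.hd - (n0 + n) = x.hd - n := by ring
          rw [this]; exact hr
        rcases hlr with h | h
        · have h' := ((RhoGen_key_pos hn0 hx he hn).1).1 h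
          rw [gam_left hr h, gam_left (n := n0 + n) hr' (by
            convert h' using 2; push_cast; ring)]
          have := Rho_setHd hx (4 * x.hd - 3 * n + 3 / 2)
          convert this using 2
          rw [hhd, he]; push_cast; ring
        · have h' := ((RhoGen_key_pos hn0 hx he hn).2).1 h
          rw [gam_right hr h, gam_right (n := n0 + n) hr' (by
            convert h' using 2; push_cast; ring)]
          have := Rho_setHd hx (4 * x.hd - 3 * n - 3 / 2)
          convert this using 2
          rw [hhd, he]; push_cast; ring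
      · have hhd' : x'.hd = n0 - x.hd := by
          rw [hhd, he]; push_cast; ring
        have hr' : |x'.hd - ((n0 - n : ℤ) : ℚ)| ≤ 1 / 2 := by
          rw [hhd']; push_cast
          have : (n0 : ℚ) - x.hd - (n0 - n) = -(x.hd - n) := by ring
          rw [this, abs_neg]; exact hr
        rcases hlr with h | h
        · have h' := ((RhoGen_key_neg hn0 hx he hn).1).1 h
          rw [gam_left hr h, gam_right (n := n0 - n) hr' (by
            convert h' using 2; push_cast; ring)]
          have := Rho_setHd hx (4 * x.hd - 3 * n + 3 / 2)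
          convert this using 2
          rw [hhd', he]; push_cast; ring
        · have h' := ((RhoGen_key_neg hn0 hx he hn).2).1 h
          rw [gam_right hr h, gam_left (n := n0 - n) hr' (by
            convert h' using 2; push_cast; ring)]
          have := Rho_setHd hx (4 * x.hd - 3 * n - 3 / 2)
          convert this using 2
          rw [hhd', he]; push_cast; ring
  · rcases lt_trichotomy x.key (kF n n) with h | h | h
    · rcases eps_cases n0 with he | he
      · rw [he, Int.cast_one, one_mul] at hhd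
        have hr' : |x'.hd - ((n0 + n : ℤ) : ℚ)| ≤ 1 / 2 := by
          rw [hhd]; push_cast
          have : (n0 : ℚ) + x.hd - (n0 + n) = x.hd - n := by ring
          rw [this]; exact hr
        have h' := ((RhoGen_key_pos hn0 hx he hn).1).1 h
        rw [gam_inv_left hr h, gam_inv_left (n := n0 + n) hr' (by
            convert h' using 2; push_cast; ring)]
        have := Rho_setHd hx ((x.hd + 3 * n - 3 / 2) / 4)
        convert this using 2
        rw [hhd, he]; push_cast; ring
      · have hhd' : x'.hd = n0 - x.hd := by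
          rw [hhd, he]; push_cast; ring
        have hr' : |x'.hd - ((n0 - n : ℤ) : ℚ)| ≤ 1 / 2 := by
          rw [hhd']; push_cast
          have : (n0 : ℚ) - x.hd - (n0 - n) = -(x.hd - n) := by ring
          rw [this, abs_neg]; exact hr
        have h' := ((RhoGen_key_neg hn0 hx he hn).1).1 h
        rw [gam_inv_left hr h, gam_inv_right (n := n0 - n) hr' (by
            convert h' using 2; push_cast; ring)]
        have := Rho_setHd hx ((x.hd + 3 * n - 3 / 2) / 4)
        convert this using 2
        rw [hhd', he]; push_cast; ring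
    · obtain ⟨y, hy, hxy⟩ := X.eq_F_of_key h
      subst hxy
      obtain ⟨y', hy', hx', hR⟩ := RhoGen_F hx
      subst hx'
      have e : ((n0 : ℚ) + eps n0 * n) = ((n0 + eps n0 * n : ℤ) : ℚ) := by push_cast; rfl
      rw [gam_inv_pop]
      have h2 : gam⁻¹ (X.F ((n0 : ℚ) + eps n0 * n) (n0 + eps n0 * n) y' hy') = y' := by
        rw [e]
        exact gam_inv_pop (n := n0 + eps n0 * n) hy'
      rw [h2]
      exact hR
    · rcases eps_cases n0 with he | he
      · rw [he, Int.cast_one, one_mul] at hhd
        have hr' : |x'.hd - ((n0 + n : ℤ) : ℚ)| ≤ 1 / 2 := by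
          rw [hhd]; push_cast
          have : (n0 : ℚ) + x.hd - (n0 + n) = x.hd - n := by ring
          rw [this]; exact hr
        have h' := ((RhoGen_key_pos hn0 hx he hn).2).1 h
        rw [gam_inv_right hr h, gam_inv_right (n := n0 + n) hr' (by
            convert h' using 2; push_cast; ring)]
        have := Rho_setHd hx ((x.hd + 3 * n + 3 / 2) / 4)
        convert this using 2
        rw [hhd, he]; push_cast; ring
      · have hhd' : x'.hd = n0 - x.hd := by
          rw [hhd, he]; push_cast; ring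
        have hr' : |x'.hd - ((n0 - n : ℤ) : ℚ)| ≤ 1 / 2 := by
          rw [hhd']; push_cast
          have : (n0 : ℚ) - x.hd - (n0 - n) = -(x.hd - n) := by ring
          rw [this, abs_neg]; exact hr
        have h' := ((RhoGen_key_neg hn0 hx he hn).2).1 h
        rw [gam_inv_right hr h, gam_inv_left (n := n0 - n) hr' (by
            convert h' using 2; push_cast; ring)]
        have := Rho_setHd hx ((x.hd + 3 * n + 3 / 2) / 4)
        convert this using 2
        rw [hhd', he]; push_cast; ring

theorem Rho_lett {t : X ≃o X} (hE : Eqv t) {i : ℕ} {n0 : ℤ}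
    (hn0 : (2 * (w i : ℤ)) ∣ n0) {x x' : X} (hx : Rho i n0 x x') (hb : |x.hd| < w i - 1)
    (p : Fin 5 × Bool) :
    Rho i n0 (lett t p x) (lett t p x') ∧ Rho i n0 ((lett t p)⁻¹ x) ((lett t p)⁻¹ x') := by
  have key : ∀ q : Fin 5, Rho i n0 (gens t q x) (gens t q x') ∧
      Rho i n0 ((gens t q)⁻¹ x) ((gens t q)⁻¹ x') := by
    have hsq : ∀ j, Rho i n0 (mv (sq j) x) (mv (sq j) x') ∧
        Rho i n0 ((mv (sq j))⁻¹ x) ((mv (sq j))⁻¹ x') := by
      intro j
      have h1 := Rho_sq hn0 hx hb j (s := 1) (Or.inl rfl)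
      have h2 := Rho_sq hn0 hx hb j (s := -1) (Or.inr rfl)
      rw [zpow_one] at h1
      rw [zpow_neg_one] at h2
      exact ⟨h1, h2⟩
    have hdq : Rho i n0 (mv dq x) (mv dq x') ∧
        Rho i n0 ((mv dq)⁻¹ x) ((mv dq)⁻¹ x') := by
      have h1 := Rho_dq hn0 hx hb (s := 1) (Or.inl rfl)
      have h2 := Rho_dq hn0 hx hb (s := -1) (Or.inr rfl)
      rw [zpow_one] at h1
      rw [zpow_neg_one] at h2
      exact ⟨h1, h2⟩
    intro q
    fin_cases q
    · exact hsq 1
    · exact hsq 0
    · exact Rho_gam hn0 hx hb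
    · exact hdq
    · exact hE i n0 hn0 x x' hx hb
  unfold lett
  split_ifs
  · exact key p.1
  · rw [inv_inv]
    exact (key p.1).symm

/-- words commute with the local symmetries as long as they stay in the region -/
theorem Rho_ev {t : X ≃o X} (hP : HP t) (hE : Eqv t) {i : ℕ} {n0 : ℤ}
    (hn0 : (2 * (w i : ℤ)) ∣ n0) {x x' : X} (hx : Rho i n0 x x') (v : List (Fin 5 × Bool))
    (hb : |x.hd| + v.length < w i) :
    Rho i n0 (ev t v x) (ev t v x') ∧ Rho i n0 ((ev t v)⁻¹ x) ((ev t v)⁻¹ x') := by
  induction v generalizing x x' with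
  | nil =>
    rw [ev_nil, inv_one]
    exact ⟨hx, hx⟩
  | cons p v ih =>
    rw [ev_cons, mul_inv_rev]
    have hlen : (((p :: v).length : ℕ) : ℚ) = v.length + 1 := by
      rw [List.length_cons]; push_cast; rfl
    rw [hlen] at hb
    have hv0 : (0 : ℚ) ≤ v.length := Nat.cast_nonneg _
    constructor
    · have h1 := (ih hx (by linarith)).1
      have h2 := ev_disp hP v x
      have h3 : |(ev t v x).hd| ≤ |x.hd| + v.length := by
        have h4 : (ev t v x).hd = x.hd + ((ev t v x).hd - x.hd) := by ring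
        calc |(ev t v x).hd| = |x.hd + ((ev t v x).hd - x.hd)| := by rw [← h4]
          _ ≤ |x.hd| + |(ev t v x).hd - x.hd| := abs_add_le _ _
          _ ≤ _ := by linarith
      exact (Rho_lett hE hn0 h1 (by linarith) p).1
    · have h1 := (Rho_lett hE hn0 hx (by linarith) p).2
      have h2 := lett_inv_disp hP p x
      have h3 : |((lett t p)⁻¹ x).hd| ≤ |x.hd| + 1 := by
        have h4 : ((lett t p)⁻¹ x).hd = x.hd + (((lett t p)⁻¹ x).hd - x.hd) := by ring
        calc |((lett t p)⁻¹ x).hd| = |x.hd + (((lett t p)⁻¹ x).hd - x.hd)| := by rw [← h4]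
          _ ≤ |x.hd| + |((lett t p)⁻¹ x).hd - x.hd| := abs_add_le _ _
          _ ≤ _ := by linarith
      exact (ih h1 (by linarith)).2

end Pool.Agent.LO.K
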