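import Pool.Agent.LOK.RhoGen

set_option autoImplicit false
set_option linter.unusedSectionVars false

namespace Pool.Agent.LO.K

variable [KK]

/-! Package LO-F3: the trap property -/

/-- a terminal at a multiple of `2 * w l` at position between `k` and `k+3` -/
theorem Trap_pow_le {g : X ≃o X} {a : X} (h : a ≤ g a) (j : ℕ) : a ≤ (g ^ j) a := by
  induction j with
  | zero => simp
  | succ j ih =>
    rw [pow_succ']
    calc a ≤ g a := h
      _ ≤ g ((g ^ j) a) := g.monotone ih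

theorem Trap_pow_ge {g : X ≃o X} {a : X} (h : g a ≤ a) (j : ℕ) : (g ^ j) a ≤ a := by
  induction j with
  | zero => simp
  | succ j ih =>
    rw [pow_succ']
    calc g ((g ^ j) a) ≤ g a := g.monotone ih
      _ ≤ a := h

/-- the trapping condition for `g` at scale `w l` -/
def TrapC (g : X ≃o X) (l : ℕ) : Prop :=
  ∀ k : ℤ, (∃ i : ℤ, 0 ≤ i ∧ i < 4 ∧
      X.T ((2 * w l * (k + i) : ℤ) : ℚ) ≤ g (X.T ((2 * w l * (k + i) : ℤ) : ℚ))) ∧
    (∃ i : ℤ, 0 ≤ i ∧ i < 4 ∧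
      g (X.T ((2 * w l * (k + i) : ℤ) : ℚ)) ≤ X.T ((2 * w l * (k + i) : ℤ) : ℚ))

theorem Trap_bound {g : X ≃o X} {l : ℕ} (h : TrapC g l) (x : X) (j : ℕ) :
    |((g ^ j) x).hd - x.hd| ≤ 8 * w l := by
  have hw : (0 : ℚ) < w l := by exact_mod_cast w_pos l
  rw [abs_le]
  constructor
  · -- lower bound
    set k : ℤ := ⌈x.hd / (2 * w l)⌉ - 4 with hk
    have h1 : x.hd / (2 * w l) ≤ (⌈x.hd / (2 * w l)⌉ : ℤ) := Int.le_ceil _
    have h2 : ((⌈x.hd / (2 * w l)⌉ : ℤ) : ℚ) < x.hd / (2 * w l) + 1 := Int.ceil_lt_add_one _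
    have hkq : ((⌈x.hd / (2 * w l)⌉ : ℤ) : ℚ) = k + 4 := by rw [hk]; push_cast; ring
    rw [hkq] at h1 h2
    obtain ⟨⟨i, hi0, hi4, hi⟩, -⟩ := h k
    have hi0q : (0 : ℚ) ≤ i := by exact_mod_cast hi0
    have hi3q : (i : ℚ) ≤ 3 := by exact_mod_cast (by omega : i ≤ 3)
    rw [div_le_iff₀ (by positivity)] at h1
    have h2' : ((k : ℚ) + 3) * (2 * w l) < x.hd := by
      have : (k : ℚ) + 3 < x.hd / (2 * w l) := by linarith
      rwa [lt_div_iff₀ (by positivity)] at this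
    have hlt : X.T ((2 * w l * (k + i) : ℤ) : ℚ) < x := by
      apply X.lt_of_hd_lt
      rw [X.hd_T]
      push_cast
      nlinarith
    have hle : X.T ((2 * w l * (k + i) : ℤ) : ℚ) ≤ (g ^ j) x :=
      le_trans (Trap_pow_le hi j) ((g ^ j).monotone hlt.le)
    have := X.hd_le_of_le hle
    rw [X.hd_T] at this
    push_cast at this
    nlinarith
  · -- upper bound
    set k : ℤ := ⌊x.hd / (2 * w l)⌋ + 1 with hk
    have h1 : ((⌊x.hd / (2 * w l)⌋ : ℤ) : ℚ) ≤ x.hd / (2 * w l) := Int.floor_le _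
    have h2 : x.hd / (2 * w l) < ((⌊x.hd / (2 * w l)⌋ : ℤ) : ℚ) + 1 := Int.lt_floor_add_one _
    have hkq : ((⌊x.hd / (2 * w l)⌋ : ℤ) : ℚ) = k - 1 := by rw [hk]; push_cast; ring
    rw [hkq] at h1 h2
    obtain ⟨-, ⟨i, hi0, hi4, hi⟩⟩ := h k
    have hi0q : (0 : ℚ) ≤ i := by exact_mod_cast hi0
    have hi3q : (i : ℚ) ≤ 3 := by exact_mod_cast (by omega : i ≤ 3)
    rw [le_div_iff₀ (by positivity)] at h1
    rw [div_lt_iff₀ (by positivity)] at h2
    have hlt : x < X.T ((2 * w l * (k + i) : ℤ) : ℚ) := by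
      apply X.lt_of_hd_lt
      rw [X.hd_T]
      push_cast
      nlinarith
    have hle : (g ^ j) x ≤ X.T ((2 * w l * (k + i) : ℤ) : ℚ) :=
      le_trans ((g ^ j).monotone hlt.le) (Trap_pow_ge hi j)
    have := X.hd_le_of_le hle
    rw [X.hd_T] at this
    push_cast at this
    nlinarith

theorem TrapC_inv {g : X ≃o X} {l : ℕ} (h : TrapC g l) : TrapC g⁻¹ l := by
  intro k
  obtain ⟨⟨i, hi0, hi4, hi⟩, ⟨j, hj0, hj4, hj⟩⟩ := h k
  refine ⟨⟨j, hj0, hj4, ?_⟩, ⟨i, hi0, hi4, ?_⟩⟩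
  · have := (g⁻¹).monotone hj
    rwa [← RelIso.mul_apply, inv_mul_cancel, RelIso.one_apply] at this
  · have := (g⁻¹).monotone hi
    rwa [← RelIso.mul_apply, inv_mul_cancel, RelIso.one_apply] at this

theorem TrapC_of_Eqv {t : X ≃o X} (hP : HP t) (hE : Eqv t) (l : ℕ) :
    TrapC (ev t (wd l)) l := by
  have key : ∀ n0 : ℤ, (2 * (w l : ℤ)) ∣ n0 →
      Rho l n0 (X.T 0) (X.T n0) ∧
        Rho l n0 (ev t (wd l) (X.T 0)) (ev t (wd l) (X.T n0)) := by
    intro n0 hn0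
    have h0 : Rho l n0 (X.T 0) (X.T n0) := by
      have := Rho.T (i := l) (n0 := n0) 0
      simpa using this
    refine ⟨h0, (Rho_ev hP hE hn0 h0 (wd l) ?_).1⟩
    rw [X.hd_T, abs_zero, zero_add]
    have h1 := wd_length l
    have h2 := add_two_le_w l
    exact_mod_cast (by omega : (wd l).length < w l)
  have hdvd : ∀ m : ℤ, (2 * (w l : ℤ)) ∣ 2 * w l * m := fun m => ⟨m, rfl⟩
  have hpow : ∀ m : ℤ, (2 * (w l : ℤ) * m) = 2 ^ (10 * l + 2) * m := by
    intro m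
    unfold w
    push_cast
    ring
  -- existence of labels
  have hex : ∀ (k : ℤ) (s : ℤ), s = 1 ∨ s = -1 →
      ∃ i : ℤ, 0 ≤ i ∧ i < 4 ∧ eps (2 * w l * (k + i)) = s := by
    intro k s hs
    obtain ⟨i, h1, h2, h3⟩ := eps_exists (10 * l + 2) k hs
    exact ⟨i, h1, h2, by rw [hpow]; exact h3⟩
  -- the two cases
  intro k
  rcases le_total (X.T 0) (ev t (wd l) (X.T 0)) with hc | hc
  · constructor
    · obtain ⟨i, h1, h2, h3⟩ := hex k 1 (Or.inl rfl)
      refine ⟨i, h1, h2, ?_⟩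
      obtain ⟨ha, hb⟩ := key _ (hdvd (k + i))
      have := (Rho_lt (hdvd (k + i)) hb ha).1 h3
      exact not_lt.mp (fun h => not_lt.mpr hc (this.mpr h))
    · obtain ⟨i, h1, h2, h3⟩ := hex k (-1) (Or.inr rfl)
      refine ⟨i, h1, h2, ?_⟩
      obtain ⟨ha, hb⟩ := key _ (hdvd (k + i))
      have := (Rho_lt (hdvd (k + i)) hb ha).2 h3
      exact not_lt.mp (fun h => not_lt.mpr hc (this.mpr h))
  · constructor
    · obtain ⟨i, h1, h2, h3⟩ := hex k (-1) (Or.inr rfl)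
      refine ⟨i, h1, h2, ?_⟩
      obtain ⟨ha, hb⟩ := key _ (hdvd (k + i))
      have := (Rho_lt (hdvd (k + i)) ha hb).2 h3
      exact not_lt.mp (fun h => not_lt.mpr hc (this.mpr h))
    · obtain ⟨i, h1, h2, h3⟩ := hex k 1 (Or.inl rfl)
      refine ⟨i, h1, h2, ?_⟩
      obtain ⟨ha, hb⟩ := key _ (hdvd (k + i))
      have := (Rho_lt (hdvd (k + i)) ha hb).1 h3
      exact not_lt.mp (fun h => not_lt.mpr hc (this.mpr h))

theorem Trp_of_Eqv {t : X ≃o X} (hP : HP t) (hE : Eqv t) : Trp t := by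
  intro l x j
  have h1 := TrapC_of_Eqv hP hE l
  rcases Int.eq_nat_or_neg j with ⟨n, hn | hn⟩
  · rw [hn, zpow_natCast]
    exact Trap_bound h1 x n
  · rw [hn, zpow_neg, zpow_natCast, ← inv_pow]
    exact Trap_bound (TrapC_inv h1) x n

/-- powers of the level-`l` word commute with the symmetries of scale `w i`, with room to spare -/
theorem Rho_V {t : X ≃o X} (hP : HP t) (hE : Eqv t) {i : ℕ} {n0 : ℤ}
    (hn0 : (2 * (w i : ℤ)) ∣ n0) {x x' : X} (hx : Rho i n0 x x') {l : ℕ}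
    (hb : |x.hd| + 8 * w l + l < w i) :
    Rho i n0 (V t l x) (V t l x') ∧ Rho i n0 ((V t l)⁻¹ x) ((V t l)⁻¹ x') := by
  have hT := Trp_of_Eqv hP hE
  have hlen : ((wd l).length : ℚ) ≤ l := by exact_mod_cast wd_length l
  have hbd : ∀ j : ℤ, |((ev t (wd l) ^ j) x).hd| + (wd l).length < w i := by
    intro j
    have h1 := hT l x j
    have h2 : |((ev t (wd l) ^ j) x).hd| ≤ |((ev t (wd l) ^ j) x).hd - x.hd| + |x.hd| := by
      have := abs_add_le (((ev t (wd l) ^ j) x).hd - x.hd) x.hd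
      rwa [sub_add_cancel] at this
    linarith
  have hpos : ∀ k : ℕ, Rho i n0 ((ev t (wd l) ^ k) x) ((ev t (wd l) ^ k) x') := by
    intro k
    induction k with
    | zero => simpa using hx
    | succ k ih =>
      rw [pow_succ']
      have := hbd k
      rw [zpow_natCast] at this
      exact (Rho_ev hP hE hn0 ih (wd l) this).1
  have hneg : ∀ k : ℕ, Rho i n0 (((ev t (wd l))⁻¹ ^ k) x) (((ev t (wd l))⁻¹ ^ k) x') := by
    intro k
    induction k with
    | zero => simpa using hx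
    | succ k ih =>
      rw [pow_succ']
      have := hbd (-(k : ℤ))
      rw [zpow_neg, zpow_natCast, ← inv_pow] at this
      exact (Rho_ev hP hE hn0 ih (wd l) this).2
  refine ⟨hpos (kk l), ?_⟩
  have := hneg (kk l)
  unfold V
  rwa [inv_pow] at this

end Pool.Agent.LO.K
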